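import Pool.Agent.Helper18.EN.PosE
import Pool.Agent.Helper18.UY.Fin

/-! Assembly of project EN from the line part. -/

set_option autoImplicit false
open MeasureTheory Real Set Filter Topology

namespace Pool.Agent.Helper18.EN

open Pool.Agent.Helper18.UC Pool.Agent.Helper18.UY

/-- the line part of project EN -/
def LinePart : Prop :=
  ∃ C A : ℝ, 1 ≤ C ∧ ∀ a : ℝ, A ≤ |a| → ∃ W : Set ℝ, Zone W ∧
    volume (W ∩ Ico (0 : ℝ) 1) ≤ ENNReal.ofReal (C / √|a|) ∧
    ∀ b : ℝ, 0 ≤ b → b ≤ 1 → ∃ K D : ℝ, 0 ≤ K ∧ 1 ≤ D ∧ ClassEst a b 100 W C K D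

private theorem prob : IsProbabilityMeasure (volume : Measure T2) := by
  have h1 : IsProbabilityMeasure (volume : Measure UnitAddCircle) := ⟨by
    rw [AddCircle.measure_univ, ENNReal.ofReal_one]⟩
  change IsProbabilityMeasure ((volume : Measure UnitAddCircle).prod (volume : Measure UnitAddCircle))
  infer_instance

private theorem vol_zt {W : Set ℝ} (hW : Zone W) : volume (zt W) = volume (W ∩ Ico (0 : ℝ) 1) := by
  have h1 : zt W = rep ⁻¹' (W ×ˢ univ) := by
    ext z
    simp [zt]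
  rw [h1, vol_rep (hW.meas.prod MeasurableSet.univ), Set.prod_inter_prod, univ_inter,
    Measure.volume_eq_prod, Measure.prod_prod, Real.volume_Ico, sub_zero, ENNReal.ofReal_one, mul_one]

private theorem ae_plane {P : T2 → Prop} (h : ∀ᵐ z, P z) :
    ∀ᵐ q : ℝ × ℝ, P (toT q) := by
  obtain ⟨N, hN1, hN2, hN3⟩ := exists_measurable_superset_of_null (ae_iff.mp h)
  have h0 : volume (toT ⁻¹' N ∩ (Ico (0:ℝ) 1 ×ˢ Ico (0:ℝ) 1)) = 0 := by
    rw [← vol_rep (measurable_toT hN2)]
    have : rep ⁻¹' (toT ⁻¹' N) = N := by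
      ext z
      simp [toT_rep]
    rw [this, hN3]
  have h1 : ∀ k : ℤ × ℤ, volume ((fun q : ℝ × ℝ => q + ((k.1 : ℝ), (k.2 : ℝ))) ⁻¹'
      (toT ⁻¹' N ∩ (Ico (0:ℝ) 1 ×ˢ Ico (0:ℝ) 1))) = 0 := by
    intro k
    rw [measure_preimage_add_right, h0]
  rw [ae_iff]
  refine measure_mono_null ?_ (measure_iUnion_null h1)
  intro q hq
  obtain ⟨u, w, h2⟩ := rep_toT q
  refine mem_iUnion.mpr ⟨(u, w), ?_⟩
  have h3 : q + ((u : ℝ), (w : ℝ)) = rep (toT q) := by
    rw [h2]
    rfl
  rw [mem_preimage, h3]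
  refine ⟨?_, rep_mem _⟩
  change toT (rep (toT q)) ∈ N
  rw [toT_rep]
  exact hN1 hq

/-- from the plane back to the torus -/
private theorem ae_torus {P : T2 → Prop} (hP : MeasurableSet {z | P z})
    (h : ∀ᵐ q : ℝ × ℝ, P (toT q)) : ∀ᵐ z, P z := by
  rw [ae_iff] at h ⊢
  have h1 : MeasurableSet {z : T2 | ¬ P z} := hP.compl
  have h2 : {z : T2 | ¬ P z} = rep ⁻¹' (toT ⁻¹' {z : T2 | ¬ P z}) := by
    ext z
    simp [toT_rep]
  rw [h2, vol_rep (measurable_toT h1)]
  exact measure_mono_null inter_subset_left h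

theorem main (hL : LinePart) : ∃ C : ℝ, ∀ δ : ℝ, 0 < δ → ∃ A : ℝ, ∀ a : ℝ, A ≤ |a| →
    ∀ S : UnitAddCircle × UnitAddCircle → UnitAddCircle × UnitAddCircle,
    (∀ x y : ℝ, S ((x : UnitAddCircle), (y : UnitAddCircle)) =
      (((2 * x - y + a * Real.sin (2 * π * x) : ℝ) : UnitAddCircle), (x : UnitAddCircle))) →
    ∃ lam : UnitAddCircle × UnitAddCircle → ℝ, Measurable lam ∧
      (∀ᵐ p : ℝ × ℝ, Tendsto (fun n : ℕ => Real.log
          ‖fderiv ℝ ((fun q : ℝ × ℝ => (2 * q.1 - q.2 + a * Real.sin (2 * π * q.1), q.1))^[n]) p‖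
            / n) atTop (𝓝 (lam ((p.1 : UnitAddCircle), (p.2 : UnitAddCircle))))) ∧
      ∃ O : Set (UnitAddCircle × UnitAddCircle), MeasurableSet O ∧ S ⁻¹' O = O ∧
        (∃ L0 : ℝ, ∀ᵐ z, z ∈ O → lam z = L0) ∧
        (∀ (ξ : ℂ) (h : UnitAddCircle × UnitAddCircle → ℂ), Measurable h →
          (∀ᵐ z, z ∈ O → h (S z) = ξ * h z) → ∃ w : ℂ, ∀ᵐ z, z ∈ O → h z = w) ∧
        (∀ᵐ z, C < lam z → z ∈ O) ∧
        ∫ z in Oᶜ, lam z ≤ C * (Real.log |a| / √|a|) ∧
        (∀ σ : ℝ, 0 ≤ σ → σ ≤ 1 / 2 → volume {z | (1 - σ) * Real.log |a| ≤ lam z} ≠ 0 →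
          1 - (σ / (1 - σ)) ^ 2 - δ ≤ volume.real O) := by
  obtain ⟨C, A, hC1, hL⟩ := hL
  have hC0 : 0 < C := by linarith
  refine ⟨C + 1 + Real.log C, ?_⟩
  have hlC : 0 ≤ Real.log C := Real.log_nonneg hC1
  intro δ hδ
  obtain ⟨A2, hA2⟩ := UY.main δ hδ
  obtain ⟨l0, hl0⟩ : ∃ l0 : ℝ, ∀ l ≥ l0, C + 1 + Real.log C ≤ 6 * Real.log l := by
    have h1 : Tendsto (fun l : ℝ => 6 * Real.log l) atTop atTop :=
      Real.tendsto_log_atTop.const_mul_atTop (by norm_num)
    exact eventually_atTop.1 (h1.eventually_ge_atTop _)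
  refine ⟨max (max A A2) (max (max 1000 (C ^ 2)) (Real.exp (max 1 l0))), ?_⟩
  intro a ha S hS
  have ha1 : A ≤ |a| := ((le_max_left _ _).trans (le_max_left _ _)).trans ha
  have ha2 : A2 ≤ |a| := ((le_max_right _ _).trans (le_max_left _ _)).trans ha
  have ha3 : 1000 ≤ |a| :=
    (((le_max_left _ _).trans (le_max_left _ _)).trans (le_max_right _ _)).trans ha
  have ha4 : C ^ 2 ≤ |a| :=
    (((le_max_right _ _).trans (le_max_left _ _)).trans (le_max_right _ _)).trans ha
  have ha5 : Real.exp (max 1 l0) ≤ |a| := ((le_max_right _ _).trans (le_max_right _ _)).trans ha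
  have ha0 : 0 < |a| := by linarith
  have hla : max 1 l0 ≤ Real.log |a| := by rw [Real.le_log_iff_exp_le ha0]; exact ha5
  have hla1 : 1 ≤ Real.log |a| := (le_max_left _ _).trans hla
  have hla2 := hl0 (Real.log |a|) ((le_max_right _ _).trans hla)
  have hs0 : 0 < √|a| := Real.sqrt_pos.2 ha0
  have hs1 : 1 ≤ √|a| := by rw [Real.one_le_sqrt]; linarith
  have hCs : C ≤ √|a| := Real.le_sqrt_of_sq_le ha4
  have hS' : IsS a S := hS
  obtain ⟨lam, hlm, hlbd, hlinv, hlim, hom⟩ := exists_lam hS'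
  obtain ⟨b, hb0, hb1, hdir⟩ := exists_dir a
  obtain ⟨W, hW, hWv, hWb⟩ := hL a ha1
  obtain ⟨K, D, hK, hD, hcls⟩ := hWb b hb0 hb1
  obtain ⟨nu, hnm, hnb, hn0, hnv, hni⟩ := exists_nu hS' hW
  have := prob
  have ha10 : 10 ≤ |a| := by linarith
  have hmix : ∀ (ξ : ℂ) (h : UnitAddCircle × UnitAddCircle → ℂ), Measurable h →
      (∀ᵐ z, z ∈ OO a b 100 W → h (S z) = ξ * h z) →
      ∃ w : ℂ, ∀ᵐ z, z ∈ OO a b 100 W → h z = w := by
    intro ξ h hh heq
    exact eig_const (S_mp hS') (measurableSet_OO hW b 100) (OO_inv hS' hW b 100)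
      (fun E E' hE hE' hEΩ hEΩ' hm hm' => posO hS' hW ha10 hE hE' hEΩ hEΩ' hm hm') hh heq
  -- the exponent outside
  have hout : ∀ x : ℝ, 0 < x → x ≤ 1 →
      ∀ᵐ z, z ∉ OO a b 100 W → lam z ≤ nu z * Real.log (C / x) + x := by
    intro x hx hx1
    have hCx : 0 ≤ Real.log (C / x) := Real.log_nonneg (by rw [le_div_iff₀ hx]; linarith)
    have h1 : ∀ᵐ z, ∀ c : ℚ, z ∈ om a c ↔ (c : ℝ) < lam z := ae_all_iff.2 fun c => hom c
    have h2 : ∀ᵐ z, ∀ κ : ℚ, nu z < κ → z ∈ vu a W κ := ae_all_iff.2 fun κ => hnv κ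
    filter_upwards [h1, h2, hn0] with z h1 h2 h3 hz
    by_contra hcon
    rw [not_le] at hcon
    obtain ⟨e, he0, he⟩ : ∃ e : ℝ, 0 < e ∧ (nu z + e) * Real.log (C / x) + x + e < lam z := by
      refine ⟨(lam z - (nu z * Real.log (C / x) + x)) / (2 * (Real.log (C / x) + 1)),
        by
          have : 0 < lam z - (nu z * Real.log (C / x) + x) := by linarith
          positivity, ?_⟩
      have hp : 0 < Real.log (C / x) + 1 := by linarith
      have e1 : (lam z - (nu z * Real.log (C / x) + x)) / (2 * (Real.log (C / x) + 1)) *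
          (Real.log (C / x) + 1) = (lam z - (nu z * Real.log (C / x) + x)) / 2 := by
        field_simp
      nlinarith
    obtain ⟨κ, hκ1, hκ2⟩ := exists_rat_btwn (show nu z < nu z + e by linarith)
    obtain ⟨c, hc1, hc2⟩ := exists_rat_btwn he
    apply hz
    refine mem_iUnion₂.2 ⟨(c, κ), ?_, (h1 c).2 hc2, h2 κ hκ1⟩
    have hκ0 : (0:ℝ) ≤ κ := by linarith
    have g1 : κ * Real.log (C / x) + x < c - e / 2 := by
      have : κ * Real.log (C / x) ≤ (nu z + e) * Real.log (C / x) :=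
        mul_le_mul_of_nonneg_right hκ2.le hCx
      linarith
    obtain ⟨θ, hθ0, hθ1, hbad⟩ := badE (c := c - e / 2) (by norm_num) hW hC1 hK hD hcls hκ0 hx hx1 g1
    refine ⟨c - e / 2, θ, le_refl _, ?_, by simpa using he0, hθ0, hθ1, hdir, hbad⟩
    have : 0 ≤ κ * Real.log (C / x) := mul_nonneg hκ0 hCx
    linarith
  have hlarge : ∀ᵐ z, C + 1 + Real.log C < lam z → z ∈ OO a b 100 W := by
    filter_upwards [hout 1 one_pos le_rfl, hn0] with z h1 h2 h3
    by_contra hz
    have h4 := h1 hz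
    have h5 : nu z ≤ 1 := (abs_le.1 (hnb z)).2
    rw [div_one] at h4
    have h6 : nu z * Real.log C ≤ 1 * Real.log C := mul_le_mul_of_nonneg_right h5 hlC
    linarith
  refine ⟨lam, hlm, hlim, OO a b 100 W, measurableSet_OO hW b 100, OO_inv hS' hW b 100, ?_, hmix,
    hlarge, ?_, ?_⟩
  · obtain ⟨w, hw⟩ := hmix 1 (fun z => (lam z : ℂ)) (Complex.measurable_ofReal.comp hlm) (by
      filter_upwards [hlinv] with z hz _
      rw [hz, one_mul])
    refine ⟨w.re, ?_⟩
    filter_upwards [hw] with z hz h1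
    rw [← hz h1, Complex.ofReal_re]
  · -- the integral
    have hx : (0:ℝ) < 1 / √|a| := by positivity
    have hx1 : 1 / √|a| ≤ 1 := by rw [div_le_one hs0]; exact hs1
    have hOm : MeasurableSet (OO a b 100 W)ᶜ := (measurableSet_OO hW b 100).compl
    have hlint : Integrable lam := Integrable.of_bound hlm.aestronglyMeasurable (Real.log (LL a))
      (Eventually.of_forall fun z => by rw [Real.norm_eq_abs]; exact hlbd z)
    have hnint : Integrable nu := Integrable.of_bound hnm.aestronglyMeasurable 1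
      (Eventually.of_forall fun z => by rw [Real.norm_eq_abs]; exact hnb z)
    set l : ℝ := Real.log (C / (1 / √|a|)) with hl
    have hl0 : 0 ≤ l := Real.log_nonneg (by rw [le_div_iff₀ hx]; linarith)
    have hl1 : l ≤ Real.log |a| := by
      rw [hl, div_div_eq_mul_div, div_one]
      refine Real.log_le_log (by positivity) ?_
      calc C * √|a| ≤ √|a| * √|a| := mul_le_mul_of_nonneg_right hCs hs0.le
        _ = |a| := Real.mul_self_sqrt ha0.le
    have hni' : ∫ z, nu z ≤ C / √|a| := by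
      rw [hni, measureReal_def, vol_zt hW]
      refine ENNReal.toReal_le_of_le_ofReal (by positivity) hWv
    calc ∫ z in (OO a b 100 W)ᶜ, lam z ≤ ∫ z in (OO a b 100 W)ᶜ, (nu z * l + 1 / √|a|) := by
          refine setIntegral_mono_ae_restrict hlint.integrableOn
            ((hnint.mul_const _).add (integrable_const _)).integrableOn ?_
          rw [Filter.EventuallyLE, ae_restrict_iff' hOm]
          filter_upwards [hout (1 / √|a|) hx hx1] with z hz hz'
          exact hz hz'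
      _ ≤ ∫ z, (nu z * l + 1 / √|a|) := by
          refine setIntegral_le_integral ((hnint.mul_const _).add (integrable_const _)) ?_
          filter_upwards [hn0] with z hz
          show (0:ℝ) ≤ nu z * l + 1 / √|a|
          positivity
      _ = (∫ z, nu z) * l + 1 / √|a| := by
          rw [integral_add (hnint.mul_const _) (integrable_const _), integral_mul_const]
          simp
      _ ≤ (C / √|a|) * Real.log |a| + 1 / √|a| * Real.log |a| := by
          have h1 : (∫ z, nu z) * l ≤ (C / √|a|) * Real.log |a| :=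
            mul_le_mul hni' hl1 hl0 (by positivity)
          have h2 : 1 / √|a| * 1 ≤ 1 / √|a| * Real.log |a| :=
            mul_le_mul_of_nonneg_left hla1 hx.le
          linarith
      _ = (C + 1) * (Real.log |a| / √|a|) := by ring
      _ ≤ (C + 1 + Real.log C) * (Real.log |a| / √|a|) :=
          mul_le_mul_of_nonneg_right (by linarith) (by positivity)
  · -- the measure
    intro σ hσ0 hσ1 hvol
    obtain ⟨lam', hlm', hlim', -, -, hbig⟩ := hA2 a ha2 S hS
    have heq : ∀ᵐ z, lam z = lam' z := by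
      refine ae_torus (measurableSet_eq_fun hlm hlm') ?_
      filter_upwards [hlim, hlim'] with p h1 h2
      exact tendsto_nhds_unique h1 h2
    have h1 : volume {z | (1 - σ) * Real.log |a| ≤ lam' z} ≠ 0 := by
      intro h0
      apply hvol
      refine measure_mono_null_ae ?_ h0
      filter_upwards [heq] with z hz h2
      show (1 - σ) * Real.log |a| ≤ lam' z
      rw [← hz]
      exact h2
    refine (hbig σ hσ0 hσ1 h1).trans ?_
    refine ENNReal.toReal_mono (measure_ne_top _ _) (measure_mono_ae ?_)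
    filter_upwards [heq, hlarge] with z h2 h3 h4
    have h5 : 6 * Real.log (Real.log |a|) < lam' z := h4
    exact h3 (by rw [h2]; linarith)

end Pool.Agent.Helper18.EN
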