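import Pool.Agent.Helper18.EN.Defs

/-! Block EN-ZN: the critical zone `{|vv a x| < H}`. -/

set_option autoImplicit false
open MeasureTheory Real Set Filter

namespace Pool.Agent.Helper18.EN

open Pool.Agent.Helper18.UC Pool.Agent.Helper18.UY

theorem zone_zn (a H : ℝ) : Zone (zn a H) := by
  have hc : Continuous (vv a) := by
    unfold vv
    fun_prop
  refine ⟨(isOpen_lt hc.abs continuous_const).measurableSet, fun x k => ?_⟩
  have h : vv a (x + k) = vv a x := by
    unfold vv
    have e : 2 * π * (x + k) = 2 * π * x + k * (2 * π) := by ring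
    rw [e, Real.cos_add_int_mul_two_pi]
  show |vv a (x + k)| < H ↔ |vv a x| < H
  rw [h]

/-- the cosine near its zeros -/
private theorem cos_low {x : ℝ} (h0 : 0 ≤ x) (h1 : x ≤ 1) :
    4 * |x - 1 / 4| ≤ |Real.cos (2 * π * x)| ∨ 4 * |x - 3 / 4| ≤ |Real.cos (2 * π * x)| := by
  have hpi := Real.pi_pos
  have key : ∀ u : ℝ, |u| ≤ 1 / 4 → 4 * |u| ≤ |Real.sin (2 * π * u)| := by
    intro u hu
    have h2 : |Real.sin (2 * π * u)| = Real.sin (2 * π * |u|) := by
      rcases le_total 0 u with h | h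
      · rw [abs_of_nonneg h, abs_of_nonneg]
        rw [abs_of_nonneg h] at hu
        refine Real.sin_nonneg_of_nonneg_of_le_pi (by positivity) ?_
        nlinarith
      · rw [abs_of_nonpos h]
        rw [abs_of_nonpos h] at hu
        have h3 : 2 * π * -u = -(2 * π * u) := by ring
        rw [h3, Real.sin_neg, abs_of_nonpos]
        have h4 : 0 ≤ Real.sin (2 * π * -u) :=
          Real.sin_nonneg_of_nonneg_of_le_pi (by nlinarith) (by nlinarith)
        rw [h3, Real.sin_neg] at h4
        linarith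
    rw [h2]
    have h3 := Real.mul_le_sin (x := 2 * π * |u|) (by positivity) (by nlinarith)
    refine le_trans (le_of_eq ?_) h3
    field_simp
    ring
  rcases le_total x (1 / 2) with h | h
  · left
    have h2 : Real.cos (2 * π * x) = -Real.sin (2 * π * (x - 1 / 4)) := by
      have e : 2 * π * (x - 1 / 4) = 2 * π * x - π / 2 := by ring
      rw [e, Real.sin_sub_pi_div_two, neg_neg]
    rw [h2, abs_neg]
    refine key _ ?_
    rw [abs_le]
    constructor <;> linarith
  · right
    have h2 : Real.cos (2 * π * x) = Real.sin (2 * π * (x - 3 / 4)) := by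
      have e : 2 * π * (x - 3 / 4) = 2 * π * x - (π + π / 2) := by ring
      rw [e, Real.sin_sub, Real.cos_add, Real.sin_add]
      simp
    rw [h2]
    refine key _ ?_
    rw [abs_le]
    constructor <;> linarith

theorem vol_zn {h0 : ℝ} (hh : 0 ≤ h0) {a : ℝ} (ha : 4 ≤ |a|) :
    volume (zn a (h0 * √|a|) ∩ Ico (0 : ℝ) 1) ≤ ENNReal.ofReal ((h0 + 1) / √|a|) := by
  have ha0 : 0 < |a| := by linarith
  have hs : 0 < √|a| := Real.sqrt_pos.2 ha0
  have hss : √|a| * √|a| = |a| := Real.mul_self_sqrt ha0.le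
  have hs2 : 2 ≤ √|a| := Real.le_sqrt_of_sq_le (by linarith)
  set ε : ℝ := (h0 + 1) / √|a| with hε
  have hε0 : 0 < ε := by positivity
  have hsub : zn a (h0 * √|a|) ∩ Ico (0 : ℝ) 1 ⊆
      Icc (1 / 4 - ε / 4) (1 / 4 + ε / 4) ∪ Icc (3 / 4 - ε / 4) (3 / 4 + ε / 4) := by
    rintro x ⟨h1, h2, h3⟩
    have h4 : |vv a x| < h0 * √|a| := h1
    have hpi := Real.pi_gt_three
    have h5 : 2 * π * |a| * |Real.cos (2 * π * x)| ≤ |vv a x| + 2 := by
      unfold vv
      have e : 2 * π * |a| * |Real.cos (2 * π * x)| = |2 * π * a * Real.cos (2 * π * x)| := by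
        rw [abs_mul, abs_mul, abs_of_pos (by positivity : (0:ℝ) < 2 * π)]
      rw [e]
      have h6 := abs_sub (2 + 2 * π * a * Real.cos (2 * π * x)) 2
      rw [add_sub_cancel_left] at h6
      have h7 : |(2:ℝ)| = 2 := abs_of_pos (by norm_num)
      rw [h7] at h6
      exact h6
    have hcos : |Real.cos (2 * π * x)| ≤ ε := by
      rw [hε, le_div_iff₀ hs]
      have h6 : 6 * |a| * |Real.cos (2 * π * x)| ≤ h0 * √|a| + 2 := by
        have : 6 * |a| * |Real.cos (2 * π * x)| ≤ 2 * π * |a| * |Real.cos (2 * π * x)| := by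
          have := mul_nonneg ha0.le (abs_nonneg (Real.cos (2 * π * x)))
          nlinarith
        linarith
      have h7 : 6 * (|Real.cos (2 * π * x)| * √|a|) * √|a| ≤ (h0 + 1) * √|a| := by
        have e : 6 * (|Real.cos (2 * π * x)| * √|a|) * √|a| =
            6 * (√|a| * √|a|) * |Real.cos (2 * π * x)| := by ring
        rw [e, hss]
        linarith
      have h8 := le_of_mul_le_mul_right h7 hs
      have h9 : 0 ≤ |Real.cos (2 * π * x)| * √|a| := by positivity
      linarith
    rcases cos_low h2 h3.le with h6 | h6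
    · left
      have h7 : |x - 1 / 4| ≤ ε / 4 := by linarith
      rw [abs_le] at h7
      exact ⟨by linarith [h7.1], by linarith [h7.2]⟩
    · right
      have h7 : |x - 3 / 4| ≤ ε / 4 := by linarith
      rw [abs_le] at h7
      exact ⟨by linarith [h7.1], by linarith [h7.2]⟩
  refine (measure_mono hsub).trans ((measure_union_le _ _).trans (le_of_eq ?_))
  rw [Real.volume_Icc, Real.volume_Icc, ← ENNReal.ofReal_add (by linarith) (by linarith)]
  congr 1
  ring

/-- the zone in terms of the sine (helper82) -/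
def zs (a D : ℝ) : Set ℝ := {x | 1 - D / |a| < |Real.sin (2 * π * x)|}

theorem zone_zs (a D : ℝ) : Zone (zs a D) := by
  have hc : Continuous fun x : ℝ => |Real.sin (2 * π * x)| := by fun_prop
  refine ⟨(isOpen_lt continuous_const hc).measurableSet, fun x k => ?_⟩
  have e : 2 * π * (x + k) = 2 * π * x + k * (2 * π) := by ring
  show 1 - D / |a| < |Real.sin (2 * π * (x + k))| ↔ 1 - D / |a| < |Real.sin (2 * π * x)|
  rw [e, Real.sin_add_int_mul_two_pi]

theorem vol_zs {a D : ℝ} (hD : 0 ≤ D) (ha : 0 < |a|) (hDa : D ≤ |a|) :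
    volume (zs a D ∩ Ico (0 : ℝ) 1) ≤ ENNReal.ofReal (√(2 * D) / √|a|) := by
  have hs : 0 < √|a| := Real.sqrt_pos.2 ha
  set ε : ℝ := √(2 * D) / √|a| with hε
  have hε0 : 0 ≤ ε := by positivity
  have hsub : zs a D ∩ Ico (0 : ℝ) 1 ⊆
      Icc (1 / 4 - ε / 4) (1 / 4 + ε / 4) ∪ Icc (3 / 4 - ε / 4) (3 / 4 + ε / 4) := by
    rintro x ⟨h1, h2, h3⟩
    have h4 : 1 - D / |a| < |Real.sin (2 * π * x)| := h1
    have hda : D / |a| ≤ 1 := by rw [div_le_one ha]; exact hDa
    have hda0 : 0 ≤ D / |a| := by positivity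
    have hcos : |Real.cos (2 * π * x)| ≤ ε := by
      have h5 := Real.sin_sq_add_cos_sq (2 * π * x)
      have h6 : (1 - D / |a|) ^ 2 ≤ Real.sin (2 * π * x) ^ 2 := by
        rw [← sq_abs (Real.sin (2 * π * x))]
        exact pow_le_pow_left₀ (by linarith) h4.le 2
      have h7 : Real.cos (2 * π * x) ^ 2 ≤ 2 * D / |a| := by
        have h8 : 2 * D / |a| = 2 * (D / |a|) := by ring
        rw [h8]
        nlinarith [sq_nonneg (D / |a|)]
      rw [hε, ← Real.sqrt_div (by positivity), ← Real.sqrt_sq_eq_abs]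
      exact Real.sqrt_le_sqrt h7
    rcases cos_low h2 h3.le with h6 | h6
    · left
      have h7 : |x - 1 / 4| ≤ ε / 4 := by linarith
      rw [abs_le] at h7
      exact ⟨by linarith [h7.1], by linarith [h7.2]⟩
    · right
      have h7 : |x - 3 / 4| ≤ ε / 4 := by linarith
      rw [abs_le] at h7
      exact ⟨by linarith [h7.1], by linarith [h7.2]⟩
  refine (measure_mono hsub).trans ((measure_union_le _ _).trans (le_of_eq ?_))
  rw [Real.volume_Icc, Real.volume_Icc, ← ENNReal.ofReal_add (by linarith) (by linarith)]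
  congr 1
  ring

end Pool.Agent.Helper18.EN
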