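import Pool.Agent.Helper18.EN.Cls
import Pool.Agent.Helper18.EN.Zn
import Pool.Agent.Helper18.EN.Fin

/-! Project EN: the class estimate and the final theorem. -/

set_option autoImplicit false
open Set Metric Filter Topology MeasureTheory

namespace Pool.Agent.Helper18.EN

open Pool.Agent.Helper82.EN Helper95.EN
open Pool.Agent.Helper18.UC Pool.Agent.Helper18.UY

/-- the set of points of a line with a given itinerary is measurable -/
lemma meas_class (a b t : ℝ) {B : ℝ} (hB : 0 < B) {W : Set ℝ} (hW : MeasurableSet W) (n : ℕ)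
    (Z J : Finset ℕ) : MeasurableSet {s : ℝ | s ∈ Icc (0 : ℝ) 1 ∧
      (∀ j < n, ((F a)^[j] (ln b t s)).1 ∈ W ↔ j ∈ Z) ∧
      ∀ l ∈ Finset.Icc 1 n, Long a b B l t s ↔ l ∈ J} := by
  have hln : Continuous fun s : ℝ => ln b t s := by
    unfold ln
    fun_prop
  have h1 : ∀ j : ℕ, MeasurableSet {s : ℝ | ((F a)^[j] (ln b t s)).1 ∈ W ↔ j ∈ Z} := by
    intro j
    have hm : Measurable fun s : ℝ => ((F a)^[j] (ln b t s)).1 :=
      measurable_fst.comp (((F_cont a).iterate j).measurable.comp hln.measurable)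
    by_cases hj : j ∈ Z
    · have e : {s : ℝ | ((F a)^[j] (ln b t s)).1 ∈ W ↔ j ∈ Z} =
          (fun s : ℝ => ((F a)^[j] (ln b t s)).1) ⁻¹' W := by
        ext s
        simp [hj]
      rw [e]
      exact hm hW
    · have e : {s : ℝ | ((F a)^[j] (ln b t s)).1 ∈ W ↔ j ∈ Z} =
          (fun s : ℝ => ((F a)^[j] (ln b t s)).1) ⁻¹' Wᶜ := by
        ext s
        simp [hj]
      rw [e]
      exact hm hW.compl
  have h2 : ∀ l : ℕ, MeasurableSet {s : ℝ | Long a b B l t s ↔ l ∈ J} := by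
    intro l
    have hm : MeasurableSet {s : ℝ | Long a b B l t s} := by
      have h3 := (isClosed_long a b hB l).measurableSet
      have h4 : Measurable fun s : ℝ => ((s, t) : ℝ × ℝ) := measurable_id.prodMk measurable_const
      exact h4 h3
    by_cases hl : l ∈ J
    · have e : {s : ℝ | Long a b B l t s ↔ l ∈ J} = {s : ℝ | Long a b B l t s} := by
        ext s
        simp [hl]
      rw [e]
      exact hm
    · have e : {s : ℝ | Long a b B l t s ↔ l ∈ J} = {s : ℝ | Long a b B l t s}ᶜ := by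
        ext s
        simp [hl]
      rw [e]
      exact hm.compl
  have e : {s : ℝ | s ∈ Icc (0 : ℝ) 1 ∧
      (∀ j < n, ((F a)^[j] (ln b t s)).1 ∈ W ↔ j ∈ Z) ∧
      ∀ l ∈ Finset.Icc 1 n, Long a b B l t s ↔ l ∈ J} =
      Icc (0 : ℝ) 1 ∩ ((⋂ j ∈ Finset.range n, {s : ℝ | ((F a)^[j] (ln b t s)).1 ∈ W ↔ j ∈ Z}) ∩
        ⋂ l ∈ Finset.Icc 1 n, {s : ℝ | Long a b B l t s ↔ l ∈ J}) := by
    ext s
    simp only [mem_inter_iff, mem_iInter, mem_ofPred_eq, Finset.mem_range]
  rw [e]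
  refine measurableSet_Icc.inter (MeasurableSet.inter ?_ ?_)
  · exact MeasurableSet.biInter (Finset.countable_toSet _) fun j _ => h1 j
  · exact MeasurableSet.biInter (Finset.countable_toSet _) fun l _ => h2 l

theorem class_est {a b : ℝ} (ha : 10 ^ 15 ≤ |a|) (hb : 0 ≤ b) (hb1 : b ≤ 1) :
    ∃ K D : ℝ, 0 ≤ K ∧ 1 ≤ D ∧
      ClassEst a b 100 (zn a (64 * √(10 ^ 10 * |a|))) (2 * 64000000016) K D := by
  have ha0 : 0 < |a| := by linarith [show (0:ℝ) < 10 ^ 15 by norm_num]
  have ha1 : 1 ≤ |a| := by linarith [show (1:ℝ) ≤ 10 ^ 15 by norm_num]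
  set r : ℝ := 2 * 10 ^ 9 with hr
  have hr0 : 0 < r := by rw [hr]; norm_num
  have h5r : 5 * r = 10 ^ 10 := by rw [hr]; norm_num
  obtain ⟨N, hN1, -, hN⟩ := pstep Pool.Agent.Helper46.EN.hurwitzLocal a hr0
  have hN1' : (1 : ℝ) ≤ N := by exact_mod_cast hN1
  set K : ℝ := 54 * (1 + r) with hK
  set D : ℝ := 2 * (2 * N) with hD
  refine ⟨K, D, by positivity, by rw [hD]; linarith, ?_⟩
  intro t n c Z J hZ hJ
  rcases Nat.eq_zero_or_pos n with hn | hn
  · subst hn
    have hZe : Z = ∅ := Finset.subset_empty.1 (by simpa using hZ)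
    have hJe : J = ∅ := Finset.subset_empty.1 (by simpa using hJ)
    subst hZe
    subst hJe
    calc volume _ ≤ volume (Icc (0:ℝ) 1) := measure_mono fun s hs => hs.1
      _ = ENNReal.ofReal 1 := by rw [Real.volume_Icc]; norm_num
      _ ≤ _ := by
        refine ENNReal.ofReal_le_ofReal ?_
        simp only [Finset.card_empty, pow_zero, mul_one, Nat.cast_zero, mul_zero, neg_zero,
          Real.exp_zero]
        rw [hK]
        linarith
  -- the orbit
  have hO := Pool.Agent.Helper72.EN.orb_xc (a := a) (t := t) hb hb1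
  have hbd : ∀ (k : ℕ) (s : ℝ), Bornology.IsBounded (cmp (xc a b t (k + 1)) (s : ℂ) (5 * r)) := by
    intro k s
    exact Pool.Agent.Helper72.EN.cp_bounded hO (R := 5 * r) (by rw [h5r]; norm_num)
      (by rw [h5r]; linarith) s k
  have hosc : ∀ (k : ℕ) (s : ℝ), ∀ z ∈ cmp (xc a b t (k + 2)) (s : ℂ) (5 * r),
      ‖xc a b t (k + 1) z - xc a b t (k + 1) s‖ < r / 2 := by
    intro k s z hz
    have h1 := Pool.Agent.Helper72.EN.small hO (R := 5 * r) (by rw [h5r]; norm_num)
      (by rw [h5r]; linarith) s k hz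
    have h2 := Pool.Agent.Helper72.EN.sqrt_small (R := 5 * r) (a := a) (by rw [h5r]; norm_num)
      (by rw [h5r]; linarith)
    refine h1.trans_le (h2.trans ?_)
    rw [hr]
    norm_num
  set W := zn a (64 * √(10 ^ 10 * |a|)) with hW
  set S : Set ℝ := {s : ℝ | s ∈ Icc (0 : ℝ) 1 ∧
      (∀ j < n, ((F a)^[j] (ln b t s)).1 ∈ W ↔ j ∈ Z) ∧
      ∀ l ∈ Finset.Icc 1 n, Long a b 100 l t s ↔ l ∈ J} with hS
  have hSm : MeasurableSet S := meas_class a b t (by norm_num) (zone_zn a _).meas n Z J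
  have hS1 : S ⊆ Icc 0 1 := fun s hs => hs.1
  have hR2 : Rad2 a (5 * r) := by
    rw [h5r]
    exact ⟨by linarith, by linarith, by linarith⟩
  have hM : 8 * r + 1 ≤ ((16000000001 + 2 : ℕ) : ℝ) := by
    rw [hr]
    norm_num
  have hmain := class_bound (a := a) (b := b) (t := t) hr0 hn hSm hS1 hbd
    (C := 2 + 4 * ((16000000001 + 2 : ℕ) : ℝ)) (D := 2 * N)
    (by norm_num) (by linarith) Z J ?_ ?_ ?_ ?_ (L := Real.exp (c * n)) (Real.exp_pos _)
  · refine (measure_mono ?_).trans (hmain.trans (ENNReal.ofReal_le_ofReal ?_))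
    · rintro s ⟨h1, h2, h3, h4⟩
      exact ⟨⟨h1, h3, h4⟩, h2⟩
    · rw [Real.exp_neg, ← div_eq_mul_inv]
      refine div_le_div_of_nonneg_right ?_ (Real.exp_pos _).le
      have e : (2 * (2 + 4 * ((16000000001 + 2 : ℕ) : ℝ))) ≤ 2 * 64000000016 := by norm_num
      have h1 : (2 * (2 + 4 * ((16000000001 + 2 : ℕ) : ℝ))) ^ Z.card ≤ (2 * 64000000016 : ℝ) ^ Z.card :=
        pow_le_pow_left₀ (by norm_num) e _
      have h2 : 0 ≤ D ^ J.card := by positivity
      exact mul_le_mul_of_nonneg_right (mul_le_mul_of_nonneg_left h1 (by positivity)) h2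
  · -- non long
    intro l hl1 hln hlJ s hs
    by_contra hcon
    push Not at hcon
    have hlong : Long a b 100 l t s := Pool.Agent.Helper72.EN.long_of_noncrit hb hb1 (by norm_num)
      (R := r) (by rw [hr]; norm_num) (by rw [hr]; linarith) hl1 hcon
    exact hlJ ((hs.2.2 l (Finset.mem_Icc.2 ⟨hl1, hln⟩)).1 hlong)
  · -- out
    intro l hl hlZ
    refine out_step hb hb1 hR2 hS1 l fun x hx => ?_
    have h1 : ((F a)^[l] (ln b t x)).1 ∉ W := fun h => hlZ ((hx.2.1 l hl).1 h)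
    have h2 : ¬ |vv a ((F a)^[l] (ln b t x)).1| < 64 * √(10 ^ 10 * |a|) := h1
    rw [(xc_real a b t l x).1, vc_real, Complex.norm_real, Real.norm_eq_abs, h5r]
    exact not_lt.1 h2
  · -- in
    intro l hl
    have hρ : √(2 * (5 * r) / |a|) ≤ r := by
      have h1 : √(2 * (5 * r) / |a|) ≤ 1 := by
        rw [Real.sqrt_le_one, div_le_one ha0, h5r]
        linarith
      refine h1.trans ?_
      rw [hr]
      norm_num
    have h1 := in_of_pre (t := t) hb hb1 ha1 hr0 (S := S) (k := l) hM hρ (fun s _ => hbd l s)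
      (fun Y hY => in_pre hb hb1 hR2 hS1 l hY)
    refine h1.trans (le_of_eq ?_)
    congr 1
    rw [ENNReal.ofReal_add (by norm_num) (by positivity), ENNReal.ofReal_mul (by norm_num),
      ENNReal.ofReal_natCast]
    norm_num
  · -- disjoint components
    intro l hl
    refine (hN b t hb hb1 hbd hosc S l).trans ?_
    rw [ENNReal.ofReal_mul (by norm_num), ENNReal.ofReal_natCast]
    have e : ENNReal.ofReal 2 = 2 := by norm_num
    rw [e]
    calc (N : ENNReal) * (2 * mm (xc a b t (l + 1)) S (5 * r) + pp (xc a b t (l + 1)) S r)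
        ≤ (N : ENNReal) * (2 * mm (xc a b t (l + 1)) S (5 * r) + 2 * pp (xc a b t (l + 1)) S r) := by
          gcongr
          calc pp (xc a b t (l + 1)) S r = 1 * pp (xc a b t (l + 1)) S r := (one_mul _).symm
            _ ≤ 2 * pp (xc a b t (l + 1)) S r := by gcongr; norm_num
      _ = 2 * N * (mm (xc a b t (l + 1)) S (5 * r) + pp (xc a b t (l + 1)) S r) := by ring

theorem linePart : LinePart := by
  refine ⟨2 * 64000000016, 10 ^ 15, by norm_num, fun a ha => ?_⟩
  have ha0 : 0 < |a| := by linarith [show (0:ℝ) < 10 ^ 15 by norm_num]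
  have e : 64 * √(10 ^ 10 * |a|) = 6400000 * √|a| := by
    rw [Real.sqrt_mul (by norm_num), show (10:ℝ) ^ 10 = (10 ^ 5) ^ 2 by norm_num,
      Real.sqrt_sq (by norm_num)]
    ring
  refine ⟨zn a (64 * √(10 ^ 10 * |a|)), zone_zn a _, ?_, fun b hb hb1 => class_est ha hb hb1⟩
  rw [e]
  refine (vol_zn (h0 := 6400000) (by norm_num) (a := a) (by linarith)).trans
    (ENNReal.ofReal_le_ofReal ?_)
  refine div_le_div_of_nonneg_right (by norm_num) (Real.sqrt_nonneg _)

end Pool.Agent.Helper18.EN
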