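import Pool.Agent.Helper18.EN.Defs

/-! Block EN-BADE: from the class estimate to the torus. -/

set_option autoImplicit false
open MeasureTheory Real Set Filter

namespace Pool.Agent.Helper18.EN

open Pool.Agent.Helper18.UC Pool.Agent.Helper18.UY

/-- sum over the subsets with at most `p` elements -/
private lemma subsets {α : Type*} [DecidableEq α] (T : Finset α) {x C p : ℝ} (hx : 0 < x) (hx1 : x ≤ 1)
    (hC : 1 ≤ C) (hp : 0 ≤ p) :
    ∑ Z ∈ T.powerset.filter (fun Z => (Z.card : ℝ) ≤ p), C ^ Z.card ≤ (C / x) ^ p * (1 + x) ^ T.card := by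
  have hCx : 1 ≤ C / x := by rw [le_div_iff₀ hx]; linarith
  calc ∑ Z ∈ T.powerset.filter (fun Z => (Z.card : ℝ) ≤ p), C ^ Z.card
      ≤ ∑ Z ∈ T.powerset.filter (fun Z => (Z.card : ℝ) ≤ p), (C / x) ^ p * x ^ Z.card := by
        refine Finset.sum_le_sum fun Z hZ => ?_
        have h1 : (Z.card : ℝ) ≤ p := (Finset.mem_filter.1 hZ).2
        have h2 : (C / x) ^ Z.card ≤ (C / x) ^ p := by
          rw [← Real.rpow_natCast]
          exact Real.rpow_le_rpow_of_exponent_le hCx h1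
        calc C ^ Z.card = (C / x) ^ Z.card * x ^ Z.card := by
              rw [← mul_pow, div_mul_cancel₀ _ hx.ne']
          _ ≤ (C / x) ^ p * x ^ Z.card := mul_le_mul_of_nonneg_right h2 (by positivity)
    _ ≤ ∑ Z ∈ T.powerset, (C / x) ^ p * x ^ Z.card :=
        Finset.sum_le_sum_of_subset_of_nonneg (Finset.filter_subset _ _)
          (fun Z _ _ => by positivity)
    _ = (C / x) ^ p * (1 + x) ^ T.card := by
        rw [← Finset.mul_sum]
        congr 1
        have h := Finset.prod_add (fun _ : α => x) (fun _ => (1 : ℝ)) T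
        rw [Finset.prod_const, add_comm x 1] at h
        rw [h]
        refine Finset.sum_congr rfl fun Z _ => ?_
        rw [Finset.prod_const, Finset.prod_const_one, mul_one]

/-- the measure on one line -/
theorem line {a b B : ℝ} {W : Set ℝ} {C K D : ℝ} (hC : 1 ≤ C) (hK : 0 ≤ K) (hD : 1 ≤ D)
    (h : ClassEst a b B W C K D) (t : ℝ) (n : ℕ) {c κ θ x y : ℝ} (hκ : 0 ≤ κ) (hθ : 0 ≤ θ)
    (hx : 0 < x) (hx1 : x ≤ 1) (hy : 0 < y) (hy1 : y ≤ 1) :
    volume {s : ℝ | s ∈ Icc (0 : ℝ) 1 ∧ Real.exp (c * n) ≤ V a b n (ln b t s) ∧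
      vis a W n (ln b t s) ≤ κ * n ∧
      ∑ l ∈ Finset.Icc 1 n, ({s : ℝ | Long a b B l t s}).indicator (fun _ => (1 : ℝ)) s ≤ θ * n} ≤
    ENNReal.ofReal (K * ((C / x) ^ κ * (1 + x) * ((D / y) ^ θ * (1 + y)) * Real.exp (-c)) ^ n) := by
  classical
  set Ix := (Finset.range n).powerset.filter (fun Z => (Z.card : ℝ) ≤ κ * n) with hIx
  set Iy := (Finset.Icc 1 n).powerset.filter (fun J => (J.card : ℝ) ≤ θ * n) with hIy
  set E : Finset ℕ → Finset ℕ → Set ℝ := fun Z J =>
    {s : ℝ | s ∈ Icc (0 : ℝ) 1 ∧ Real.exp (c * n) ≤ V a b n (ln b t s) ∧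
      (∀ j < n, ((F a)^[j] (ln b t s)).1 ∈ W ↔ j ∈ Z) ∧
      ∀ l ∈ Finset.Icc 1 n, Long a b B l t s ↔ l ∈ J} with hE
  have hsub : {s : ℝ | s ∈ Icc (0 : ℝ) 1 ∧ Real.exp (c * n) ≤ V a b n (ln b t s) ∧
      vis a W n (ln b t s) ≤ κ * n ∧
      ∑ l ∈ Finset.Icc 1 n, ({s : ℝ | Long a b B l t s}).indicator (fun _ => (1 : ℝ)) s ≤ θ * n} ⊆
      ⋃ i ∈ Ix ×ˢ Iy, E i.1 i.2 := by
    rintro s ⟨hs, hV, hvis, hsum⟩
    set Z : Finset ℕ := (Finset.range n).filter (fun j => ((F a)^[j] (ln b t s)).1 ∈ W) with hZ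
    set J : Finset ℕ := (Finset.Icc 1 n).filter (fun l => Long a b B l t s) with hJ
    have hZc : (Z.card : ℝ) ≤ κ * n := by
      have e : vis a W n (ln b t s) = Z.card := by
        rw [hZ, Finset.card_filter, Nat.cast_sum]
        unfold vis
        refine Finset.sum_congr rfl fun l _ => ?_
        by_cases h : ((F a)^[l] (ln b t s)).1 ∈ W
        · rw [Set.indicator_of_mem h, if_pos h]
          simp
        · rw [Set.indicator_of_notMem h, if_neg h]
          simp
      rw [← e]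
      exact hvis
    have hJc : (J.card : ℝ) ≤ θ * n := by
      have e : ∑ l ∈ Finset.Icc 1 n, ({s : ℝ | Long a b B l t s}).indicator (fun _ => (1 : ℝ)) s =
          J.card := by
        rw [hJ, Finset.card_filter, Nat.cast_sum]
        refine Finset.sum_congr rfl fun l _ => ?_
        by_cases h : Long a b B l t s
        · rw [Set.indicator_of_mem (show s ∈ {s : ℝ | Long a b B l t s} from h), if_pos h]
          simp
        · rw [Set.indicator_of_notMem (show s ∉ {s : ℝ | Long a b B l t s} from h), if_neg h]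
          simp
      rw [← e]
      exact hsum
    rw [mem_iUnion₂]
    refine ⟨(Z, J), ?_, hs, hV, ?_, ?_⟩
    · rw [Finset.mem_product, hIx, hIy, Finset.mem_filter, Finset.mem_filter, Finset.mem_powerset,
        Finset.mem_powerset]
      exact ⟨⟨Finset.filter_subset _ _, hZc⟩, Finset.filter_subset _ _, hJc⟩
    · intro j hj
      rw [hZ, Finset.mem_filter, Finset.mem_range]
      exact ⟨fun h => ⟨hj, h⟩, fun h => h.2⟩
    · intro l hl
      rw [hJ, Finset.mem_filter]
      exact ⟨fun h => ⟨hl, h⟩, fun h => h.2⟩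
  have hx' : (0:ℝ) ≤ κ * n := by positivity
  have hy' : (0:ℝ) ≤ θ * n := by positivity
  have s1 := subsets (Finset.range n) hx hx1 hC hx'
  have s2 := subsets (Finset.Icc 1 n) hy hy1 hD hy'
  rw [Finset.card_range] at s1
  rw [Nat.card_Icc, Nat.add_sub_cancel] at s2
  have hC0 : 0 < C := by linarith
  have hD0 : 0 < D := by linarith
  calc volume _ ≤ volume (⋃ i ∈ Ix ×ˢ Iy, E i.1 i.2) := measure_mono hsub
    _ ≤ ∑ i ∈ Ix ×ˢ Iy, volume (E i.1 i.2) := measure_biUnion_finset_le _ _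
    _ ≤ ∑ i ∈ Ix ×ˢ Iy, ENNReal.ofReal (K * C ^ i.1.card * D ^ i.2.card * Real.exp (-(c * n))) := by
        refine Finset.sum_le_sum fun i hi => ?_
        rw [Finset.mem_product, hIx, hIy, Finset.mem_filter, Finset.mem_filter, Finset.mem_powerset,
          Finset.mem_powerset] at hi
        exact h t n c i.1 i.2 hi.1.1 hi.2.1
    _ = ENNReal.ofReal (∑ i ∈ Ix ×ˢ Iy, K * C ^ i.1.card * D ^ i.2.card * Real.exp (-(c * n))) := by
        rw [ENNReal.ofReal_sum_of_nonneg]
        intro i _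
        positivity
    _ ≤ ENNReal.ofReal (K * ((C / x) ^ κ * (1 + x) * ((D / y) ^ θ * (1 + y)) * Real.exp (-c)) ^ n) := by
        refine ENNReal.ofReal_le_ofReal ?_
        rw [Finset.sum_product]
        have e1 : ∑ Z ∈ Ix, ∑ J ∈ Iy, K * C ^ Z.card * D ^ J.card * Real.exp (-(c * n)) =
            K * Real.exp (-(c * n)) * ((∑ Z ∈ Ix, C ^ Z.card) * ∑ J ∈ Iy, D ^ J.card) := by
          rw [Finset.sum_mul_sum, Finset.mul_sum]
          refine Finset.sum_congr rfl fun Z _ => ?_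
          rw [Finset.mul_sum]
          refine Finset.sum_congr rfl fun J _ => ?_
          ring
        rw [e1]
        have h1 : 0 ≤ ∑ Z ∈ Ix, C ^ Z.card := Finset.sum_nonneg fun Z _ => by positivity
        have h2 : 0 ≤ ∑ J ∈ Iy, D ^ J.card := Finset.sum_nonneg fun Z _ => by positivity
        have h3 : (∑ Z ∈ Ix, C ^ Z.card) * ∑ J ∈ Iy, D ^ J.card ≤
            ((C / x) ^ (κ * n) * (1 + x) ^ n) * ((D / y) ^ (θ * n) * (1 + y) ^ n) :=
          mul_le_mul s1 s2 h2 (by positivity)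
        refine (mul_le_mul_of_nonneg_left h3 (by positivity)).trans (le_of_eq ?_)
        have e2 : (C / x) ^ (κ * n) = ((C / x) ^ κ) ^ n := by
          rw [Real.rpow_mul (by positivity), Real.rpow_natCast]
        have e3 : (D / y) ^ (θ * n) = ((D / y) ^ θ) ^ n := by
          rw [Real.rpow_mul (by positivity), Real.rpow_natCast]
        have e4 : Real.exp (-(c * n)) = Real.exp (-c) ^ n := by
          rw [← Real.exp_nat_mul]
          congr 1
          ring
        rw [e2, e3, e4, mul_pow _ (Real.exp (-c)), mul_pow _ ((D / y) ^ θ * (1 + y)),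
          mul_pow _ (1 + x), mul_pow _ (1 + y)]
        ring

/-- the bad set in line coordinates -/
private def bset (a b B : ℝ) (W : Set ℝ) (c κ θ : ℝ) (N : ℕ) : Set (ℝ × ℝ) :=
  {p | p ∈ Ico (0 : ℝ) 1 ×ˢ Ico (0 : ℝ) 1 ∧ Real.exp (c * N) ≤ V a b N (ln b p.2 p.1) ∧
    vis a W N (ln b p.2 p.1) ≤ κ * N ∧
    ∑ l ∈ Finset.Icc 1 N, ({p : ℝ × ℝ | Long a b B l p.2 p.1}).indicator (fun _ => (1 : ℝ)) p ≤
      θ * N}

theorem vis_meas (a : ℝ) {W : Set ℝ} (hW : MeasurableSet W) (n : ℕ) : Measurable (vis a W n) := by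
  unfold vis
  refine Finset.measurable_fun_sum _ fun j _ => ?_
  have h1 : Measurable fun q : ℝ × ℝ => ((F a)^[j] q).1 :=
    measurable_fst.comp ((F_cont a).iterate j).measurable
  exact (measurable_const.indicator hW).comp h1

theorem vis_sh (a : ℝ) {W : Set ℝ} (hW : Zone W) (n : ℕ) (q : ℝ × ℝ) (k l : ℤ) :
    vis a W n (sh q k l) = vis a W n q := by
  unfold vis
  refine Finset.sum_congr rfl fun j _ => ?_
  rw [iter_sh]
  have h1 : (sh ((F a)^[j] q) (k + j * (k - l)) (l + j * (k - l))).1 =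
      ((F a)^[j] q).1 + ((k + j * (k - l) : ℤ) : ℝ) := rfl
  rw [h1]
  by_cases h2 : ((F a)^[j] q).1 ∈ W
  · rw [Set.indicator_of_mem h2, Set.indicator_of_mem ((hW.per _ _).2 h2)]
  · rw [Set.indicator_of_notMem h2, Set.indicator_of_notMem (fun h3 => h2 ((hW.per _ _).1 h3))]

theorem vis_rb (a b : ℝ) {W : Set ℝ} (hW : Zone W) (n : ℕ) (z : T2) :
    vis a W n (ln b (rb b z).2 (rb b z).1) = vis a W n (rep z) := by
  obtain ⟨u, w, h⟩ := rep_toT (ln b (rb b z).2 (rb b z).1)
  rw [toT_ln_rb] at h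
  rw [h, vis_sh a hW]

theorem measurableSet_VQ (a : ℝ) {W : Set ℝ} (hW : Zone W) (κ : ℝ) (N : ℕ) :
    MeasurableSet (VQ a W κ N) :=
  measurableSet_le ((vis_meas a hW.meas N).comp measurable_rep) measurable_const

private theorem bset_meas (a b : ℝ) {B : ℝ} (hB : 0 < B) {W : Set ℝ} (hW : Zone W) (c κ θ : ℝ)
    (N : ℕ) : MeasurableSet (bset a b B W c κ θ N) := by
  have h0 : Continuous fun p : ℝ × ℝ => ln b p.2 p.1 := by
    unfold ln
    fun_prop
  have h1 : Continuous fun p : ℝ × ℝ => V a b N (ln b p.2 p.1) := (V_cont a b N).comp h0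
  have h2 : Measurable fun p : ℝ × ℝ => ∑ l ∈ Finset.Icc 1 N,
      ({p : ℝ × ℝ | Long a b B l p.2 p.1}).indicator (fun _ => (1 : ℝ)) p :=
    Finset.measurable_fun_sum _ fun l _ =>
      measurable_const.indicator (isClosed_long a b hB l).measurableSet
  have h3 : MeasurableSet {p : ℝ × ℝ | Real.exp (c * N) ≤ V a b N (ln b p.2 p.1)} :=
    (isClosed_le continuous_const h1).measurableSet
  have h4 := measurableSet_le h2 (measurable_const (a := θ * (N : ℝ)))
  have h5 : MeasurableSet {p : ℝ × ℝ | vis a W N (ln b p.2 p.1) ≤ κ * N} :=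
    measurableSet_le ((vis_meas a hW.meas N).comp h0.measurable) measurable_const
  exact (measurableSet_Ico.prod measurableSet_Ico).inter (h3.inter (h5.inter h4))

private theorem bset_sub (a b B : ℝ) {W : Set ℝ} (hW : Zone W) (c κ θ : ℝ) (N : ℕ) :
    (PV a b c N ∩ VQ a W κ N) \ FQ a b B θ N ⊆ rb b ⁻¹' bset a b B W c κ θ N := by
  rintro z ⟨⟨h1, h1'⟩, h2⟩
  refine ⟨rb_mem b z, ?_, ?_, ?_⟩
  · rw [V_rb]
    exact h1
  · rw [vis_rb a b hW]
    exact h1'
  · have h3 : ¬ θ * N ≤ ∑ n ∈ Finset.Icc 1 N, (LG a b B n).indicator (fun _ => (1 : ℝ)) z := h2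
    rw [not_le] at h3
    exact h3.le

private theorem bset_vol {a b B : ℝ} (hB : 0 < B) {W : Set ℝ} (hW : Zone W) {C K D : ℝ}
    (hC : 1 ≤ C) (hK : 0 ≤ K) (hD : 1 ≤ D)
    (h : ClassEst a b B W C K D) (N : ℕ) {c κ θ x y : ℝ} (hκ : 0 ≤ κ) (hθ : 0 ≤ θ)
    (hx : 0 < x) (hx1 : x ≤ 1) (hy : 0 < y) (hy1 : y ≤ 1) :
    volume (bset a b B W c κ θ N) ≤
      ENNReal.ofReal (K * ((C / x) ^ κ * (1 + x) * ((D / y) ^ θ * (1 + y)) * Real.exp (-c)) ^ N) := by
  rw [Measure.volume_eq_prod, Measure.prod_apply_symm (bset_meas a b hB hW c κ θ N)]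
  set X := ENNReal.ofReal
    (K * ((C / x) ^ κ * (1 + x) * ((D / y) ^ θ * (1 + y)) * Real.exp (-c)) ^ N) with hX
  have h1 : ∀ t : ℝ, volume ((fun s : ℝ => (s, t)) ⁻¹' bset a b B W c κ θ N) ≤
      (Ico (0 : ℝ) 1).indicator (fun _ => X) t := by
    intro t
    by_cases ht : t ∈ Ico (0 : ℝ) 1
    · rw [indicator_of_mem ht]
      refine (measure_mono ?_).trans (line hC hK hD h t N (c := c) hκ hθ hx hx1 hy hy1)
      rintro s ⟨h2, h3, h4, h5⟩
      exact ⟨Ico_subset_Icc_self h2.1, h3, h4, h5⟩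
    · rw [indicator_of_notMem ht]
      have h2 : (fun s : ℝ => (s, t)) ⁻¹' bset a b B W c κ θ N = ∅ := by
        ext s
        simp only [mem_preimage, mem_empty_iff_false, iff_false]
        rintro ⟨h2, -, -⟩
        exact ht h2.2
      rw [h2, measure_empty]
  calc ∫⁻ t, volume ((fun s : ℝ => (s, t)) ⁻¹' bset a b B W c κ θ N)
      ≤ ∫⁻ t, (Ico (0 : ℝ) 1).indicator (fun _ => X) t := lintegral_mono h1
    _ = X := by
      rw [lintegral_indicator measurableSet_Ico, setLIntegral_const, Real.volume_Ico, sub_zero,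
        ENNReal.ofReal_one, mul_one]

/-- points with a large velocity and few visits have many long times -/
theorem badE {a b B : ℝ} (hB : 0 < B) {W : Set ℝ} (hW : Zone W) {C K D : ℝ} (hC : 1 ≤ C)
    (hK : 0 ≤ K) (hD : 1 ≤ D) (h : ClassEst a b B W C K D) {c κ x : ℝ} (hκ : 0 ≤ κ) (hx : 0 < x)
    (hx1 : x ≤ 1) (hc : κ * Real.log (C / x) + x < c) :
    ∃ θ : ℝ, 0 < θ ∧ θ ≤ 1 ∧ BadE a b B W c κ θ := by
  set g : ℝ := c - (κ * Real.log (C / x) + x) with hg
  have hg0 : 0 < g := by rw [hg]; linarith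
  set y : ℝ := min 1 (g / 4) with hy
  have hy0 : 0 < y := lt_min one_pos (by linarith)
  have hy1 : y ≤ 1 := min_le_left _ _
  have hy2 : y ≤ g / 4 := min_le_right _ _
  have hDy : 1 ≤ D / y := by rw [le_div_iff₀ hy0]; linarith
  have hlD : 0 ≤ Real.log (D / y) := Real.log_nonneg hDy
  set θ : ℝ := min 1 (g / (4 * (1 + Real.log (D / y)))) with hθ
  have hθ0 : 0 < θ := lt_min one_pos (by positivity)
  have hθ1 : θ ≤ 1 := min_le_left _ _
  have hθ2 : θ * Real.log (D / y) ≤ g / 4 := by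
    have h1 : θ ≤ g / (4 * (1 + Real.log (D / y))) := min_le_right _ _
    have h2 : θ * (4 * (1 + Real.log (D / y))) ≤ g := by
      rw [le_div_iff₀ (by positivity)] at h1
      exact h1
    nlinarith
  refine ⟨θ, hθ0, hθ1, ?_⟩
  have hCx : 1 ≤ C / x := by rw [le_div_iff₀ hx]; linarith
  set X : ℝ := (C / x) ^ κ * (1 + x) * ((D / y) ^ θ * (1 + y)) * Real.exp (-c) with hX
  have hX0 : 0 < X := by positivity
  have hX1 : X < 1 := by
    rw [← Real.log_neg_iff hX0, hX, Real.log_mul (by positivity) (by positivity),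
      Real.log_mul (by positivity) (by positivity), Real.log_mul (by positivity) (by positivity),
      Real.log_mul (by positivity) (by positivity), Real.log_rpow (by positivity),
      Real.log_rpow (by positivity), Real.log_exp]
    have h1 := Real.log_le_sub_one_of_pos (show 0 < 1 + x by linarith)
    have h2 := Real.log_le_sub_one_of_pos (show 0 < 1 + y by linarith)
    linarith
  have hlim : Tendsto (fun N : ℕ => ENNReal.ofReal (K * X ^ N)) atTop (nhds 0) := by
    have h1 : Tendsto (fun N : ℕ => K * X ^ N) atTop (nhds (K * 0)) :=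
      (tendsto_pow_atTop_nhds_zero_of_lt_one hX0.le hX1).const_mul _
    rw [mul_zero] at h1
    have h2 := ENNReal.tendsto_ofReal h1
    rwa [ENNReal.ofReal_zero] at h2
  refine tendsto_of_tendsto_of_tendsto_of_le_of_le tendsto_const_nhds hlim (fun _ => bot_le)
    fun N => ?_
  calc volume ((PV a b c N ∩ VQ a W κ N) \ FQ a b B θ N) ≤ volume (rb b ⁻¹' bset a b B W c κ θ N) :=
        measure_mono (bset_sub a b B hW c κ θ N)
    _ = volume (bset a b B W c κ θ N) := vol_rb b (bset_meas a b hB hW c κ θ N) fun p hp => hp.1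
    _ ≤ _ := bset_vol hB hW hC hK hD h N hκ hθ0.le hx hx1 hy0 hy1

end Pool.Agent.Helper18.EN
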