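import Pool.Agent.Helper18.EN.Grid
import Pool.Agent.Helper82.EN.OutIn
import Pool.Agent.Helper82.EN.Zeros
import Pool.Agent.Helper46.EN.HurwitzC

/-! Block EN-IN: the step for the number of critical points at a visit. -/

set_option autoImplicit false
open Set Metric Filter Topology

namespace Pool.Agent.Helper18.EN

open Pool.Agent.Helper82.EN Helper95.EN
open Pool.Agent.Helper18.UC Pool.Agent.Helper18.UY

/-- the zeros of `vc` near a point, as a finset statement -/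
lemma vc_card {a : ℝ} (ha : 1 ≤ |a|) {r : ℝ} {M : ℕ} (hM : 8 * r + 1 ≤ M) (x : ℂ) (F : Finset ℂ)
    (hF : ∀ w ∈ F, w ∈ {w : ℂ | vc a w = 0} ∧ ‖x - w‖ < 4 * r) : F.card ≤ 2 * M := by
  have h1 := vc_zeros_card ha x (4 * r) M (by linarith)
  have h2 : ((F : Set ℂ)).encard ≤ 2 * M := by
    refine (Set.encard_le_encard ?_).trans h1
    intro w hw
    obtain ⟨h3, h4⟩ := hF w (Finset.mem_coe.1 hw)
    rw [norm_sub_rev] at h4
    exact ⟨h3, h4⟩
  rw [Set.encard_coe_eq_coe_finsetCard] at h2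
  exact_mod_cast h2

/-- the step at a visit, from the counting lemma -/
theorem in_of_pre {a b t r : ℝ} (hb : 0 ≤ b) (hb1 : b ≤ 1) (ha : 1 ≤ |a|) (hr : 0 < r) {S : Set ℝ} {k M : ℕ}
    (hM : 8 * r + 1 ≤ M) {ρ : ℝ} (hρ : ρ ≤ r)
    (hbd : ∀ s ∈ S, Bornology.IsBounded (cmp (xc a b t (k + 1)) (s : ℂ) (5 * r)))
    (hpre : ∀ Y : Set ℂ, Y = {z | z ∈ (⋃ x ∈ S, cmp (xc a b t (k + 1)) (x : ℂ) ρ) ∧
      vc a (xc a b t (k + 1) z) = 0} →
      mm (xc a b t (k + 2)) S (5 * r) ≤ 2 * mm (xc a b t (k + 1)) S (5 * r) + ((Y.encard : ℕ∞) : ENNReal)) :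
    mm (xc a b t (k + 2)) S (5 * r) ≤
      (2 + 4 * M) * (mm (xc a b t (k + 1)) S (5 * r) + pp (xc a b t (k + 1)) S r) := by
  have hfd : Differentiable ℂ (xc a b t (k + 1)) := xc_diff a b t (k + 1)
  set Y : Set ℂ := {z | z ∈ (⋃ x ∈ S, cmp (xc a b t (k + 1)) (x : ℂ) ρ) ∧
      vc a (xc a b t (k + 1) z) = 0} with hY
  have h1 := hpre Y rfl
  have h2 := count_grid Pool.Agent.Helper46.EN.hurwitzLocal hfd S hr hbd
    (G := {w : ℂ | vc a w = 0}) (N := 2 * M) (fun x F hF => vc_card ha hM x F hF) (Y := Y) (by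
      rintro z ⟨hz, hz0⟩
      obtain ⟨s, hs, hzs⟩ := mem_iUnion₂.1 hz
      exact ⟨hz0, s, hs, cmp_mono hρ hzs⟩)
  set m := mm (xc a b t (k + 1)) S (5 * r) with hm
  set p := pp (xc a b t (k + 1)) S r with hp
  calc mm (xc a b t (k + 2)) S (5 * r) ≤ 2 * m + ((Y.encard : ℕ∞) : ENNReal) := h1
    _ ≤ 2 * m + ((2 * M : ℕ) : ENNReal) * (2 * m + p) := by gcongr
    _ ≤ 2 * m + ((2 * M : ℕ) : ENNReal) * (2 * m + 2 * p) + 2 * p := by
        refine le_trans ?_ (le_self_add)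
        gcongr
        calc p = 1 * p := (one_mul p).symm
          _ ≤ 2 * p := by gcongr; norm_num
    _ = (2 + 4 * M) * (m + p) := by
        push_cast
        ring

end Pool.Agent.Helper18.EN
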