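import Pool.Agent.Helper18.EN.Rec
import Pool.Agent.Helper18.EN.In
import Pool.Agent.Helper59.EN.End

/-! Block EN-CLS: from the steps to the measure of a set of points with a given itinerary. -/

set_option autoImplicit false
open Set Metric Filter Topology MeasureTheory

namespace Pool.Agent.Helper18.EN

open Pool.Agent.Helper82.EN Helper95.EN
open Pool.Agent.Helper18.UC Pool.Agent.Helper18.UY

/-- no critical points at time zero -/
lemma mm_zero (a b t : ℝ) (S : Set ℝ) (R : ℝ) : mm (xc a b t 1) S R = 0 := by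
  unfold mm
  refine cz_eq_zero fun z _ => ?_
  have h : xc a b t 1 = fun z => z := by
    ext z
    simp only [xc]
  rw [h]
  simp

/-- the number of disjoint components at time zero -/
lemma pp_zero (a b t : ℝ) {S : Set ℝ} (hS : S ⊆ Icc 0 1) {r : ℝ} (hr : 0 < r) :
    pp (xc a b t 1) S r ≤ ENNReal.ofReal (1 / r + 1) := by
  classical
  have h : xc a b t 1 = fun z => z := by
    ext z
    simp only [xc]
  have hc : ∀ s : ℝ, ball (s : ℂ) r ⊆ cmp (xc a b t 1) (s : ℂ) r := by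
    intro s
    refine cmp_max (convex_ball _ _).isPreconnected (mem_ball_self hr) fun u hu => ?_
    rw [h]
    rwa [mem_ball, dist_eq_norm] at hu
  unfold pp
  refine iSup₂_le fun F hF => ?_
  set g : ℝ → ℤ := fun s => ⌊s / r⌋ with hg
  have hinj : Set.InjOn g (F : Set ℝ) := by
    intro s hs s' hs' heq
    by_contra hne
    have hd := hF.2 hs hs' hne
    rw [Function.onFun, Set.disjoint_left] at hd
    have h1 : |s / r - s' / r| < 1 := Int.abs_sub_lt_one_of_floor_eq_floor heq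
    have h2 : |s - s'| < r := by
      rw [← sub_div, abs_div, abs_of_pos hr, div_lt_one hr] at h1
      exact h1
    refine hd (hc s (mem_ball_self hr)) (hc s' ?_)
    rw [mem_ball, dist_eq_norm, ← Complex.ofReal_sub, Complex.norm_real, Real.norm_eq_abs]
    exact h2
  have hsub : F.image g ⊆ Finset.Icc 0 ⌊1 / r⌋ := by
    intro i hi
    rw [Finset.mem_image] at hi
    obtain ⟨s, hs, rfl⟩ := hi
    obtain ⟨h1, h2⟩ := hS (hF.1 (Finset.mem_coe.2 hs))
    rw [Finset.mem_Icc]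
    refine ⟨Int.floor_nonneg.2 (by positivity), Int.floor_le_floor ?_⟩
    exact div_le_div_of_nonneg_right h2 hr.le
  have hcard : F.card ≤ (⌊1 / r⌋ + 1).toNat := by
    have h1 := Finset.card_le_card hsub
    rw [Finset.card_image_of_injOn hinj, Int.card_Icc, sub_zero] at h1
    exact h1
  have h1 : (F.card : ℝ) ≤ 1 / r + 1 := by
    have h2 : ((⌊1 / r⌋ + 1).toNat : ℤ) = ⌊1 / r⌋ + 1 := by
      refine Int.toNat_of_nonneg ?_
      have : 0 ≤ ⌊1 / r⌋ := Int.floor_nonneg.2 (by positivity)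
      omega
    have h3 : ((⌊1 / r⌋ + 1).toNat : ℝ) = ⌊1 / r⌋ + 1 := by exact_mod_cast h2
    calc (F.card : ℝ) ≤ ((⌊1 / r⌋ + 1).toNat : ℝ) := by exact_mod_cast hcard
      _ = ⌊1 / r⌋ + 1 := h3
      _ ≤ _ := by
        have := Int.floor_le (1 / r)
        linarith
  rw [← ENNReal.ofReal_natCast]
  exact ENNReal.ofReal_le_ofReal h1

/-- the measure of the points with large velocity in a set with a given itinerary -/
theorem class_bound {a b t r : ℝ} (hr : 0 < r)
    {n : ℕ} (hn : 1 ≤ n) {S : Set ℝ} (hS : MeasurableSet S) (hS1 : S ⊆ Icc 0 1)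
    (hbd : ∀ (k : ℕ) (s : ℝ), Bornology.IsBounded (cmp (xc a b t (k + 1)) (s : ℂ) (5 * r)))
    {C D : ℝ} (hC : 1 ≤ C) (hD : 1 ≤ D) (Z J : Finset ℕ)
    (hNL : ∀ l, 1 ≤ l → l ≤ n → l ∉ J → ∀ s ∈ S, ∃ x ∈ cmp (xc a b t (l + 1)) (s : ℂ) r,
      deriv (xc a b t (l + 1)) x = 0)
    (hOUT : ∀ l < n, l ∉ Z → mm (xc a b t (l + 2)) S (5 * r) ≤ mm (xc a b t (l + 1)) S (5 * r))
    (hIN : ∀ l < n, mm (xc a b t (l + 2)) S (5 * r) ≤
      ENNReal.ofReal C * (mm (xc a b t (l + 1)) S (5 * r) + pp (xc a b t (l + 1)) S r))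
    (hP : ∀ l < n, pp (xc a b t (l + 2)) S r ≤
      ENNReal.ofReal D * (mm (xc a b t (l + 1)) S (5 * r) + pp (xc a b t (l + 1)) S r))
    {L : ℝ} (hL : 0 < L) :
    volume {s ∈ S | L ≤ V a b n (ln b t s)} ≤
      ENNReal.ofReal (54 * (1 + r) * (2 * C) ^ Z.card * (2 * D) ^ J.card / L) := by
  obtain ⟨m, rfl⟩ : ∃ m, n = m + 1 := ⟨n - 1, by omega⟩
  have hC' : (1 : ENNReal) ≤ ENNReal.ofReal C := by
    rw [← ENNReal.ofReal_one]
    exact ENNReal.ofReal_le_ofReal hC
  have hD' : (1 : ENNReal) ≤ ENNReal.ofReal D := by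
    rw [← ENNReal.ofReal_one]
    exact ENNReal.ofReal_le_ofReal hD
  set K : ℝ := 1 / r + 1 with hK
  have hK0 : 0 < K := by positivity
  have hrec := rec_bound (M := fun l => mm (xc a b t (l + 1)) S (5 * r))
    (P := fun l => pp (xc a b t (l + 1)) S r) (C := ENNReal.ofReal C) (D := ENNReal.ofReal D)
    (K := ENNReal.ofReal K) hC' hD' (Z := Z) (J := J) (n := m + 1)
    (by
      show mm (xc a b t (0 + 1)) S (5 * r) ≤ _
      rw [zero_add, mm_zero]
      exact zero_le)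
    (pp_zero a b t hS1 hr)
    (fun l h1 h2 h3 => pp_le_mm (xc_diff a b t (l + 1)) S (by linarith) (hNL l h1 h2 h3))
    hOUT hIN hP
  set X : ENNReal := ENNReal.ofReal K * (2 * ENNReal.ofReal C) ^ Z.card *
    (2 * ENNReal.ofReal D) ^ J.card with hX
  have hbound : ∀ l ≤ m + 1, mm (xc a b t (l + 1)) S (5 * r) ≤ X ∧ pp (xc a b t (l + 1)) S r ≤ X := by
    intro l hl
    obtain ⟨h1, h2⟩ := hrec l hl
    have h3 := Bd_le (K := ENNReal.ofReal K) hC' hD' Z J l
    exact ⟨h1.trans h3, h2.trans h3⟩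
  -- the fibres
  have hfib : ∀ l ≤ m + 1, ∀ w : ℝ, (({z : ℂ | ∃ s ∈ S, z = (s : ℂ) ∧
      ∃ i : ℤ, xc a b t (l + 1) z = ((w + i * r : ℝ) : ℂ)}.encard : ℕ∞) : ENNReal) ≤ 27 * X := by
    intro l hl w
    obtain ⟨h1, h2⟩ := hbound l hl
    have h3 := count_grid Pool.Agent.Helper46.EN.hurwitzLocal (xc_diff a b t (l + 1)) S hr
      (fun s _ => hbd l s) (G := {v : ℂ | ∃ i : ℤ, v = ((w + i * r : ℝ) : ℂ)}) (N := 9)
      (fun x F hF => by
        have := grid_card hr hr w x F hF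
        have e : ⌊8 * r / r⌋₊ = 8 := by
          rw [mul_div_assoc, div_self hr.ne', mul_one]
          norm_num
        rw [e] at this
        exact this)
      (Y := {z : ℂ | ∃ s ∈ S, z = (s : ℂ) ∧ ∃ i : ℤ, xc a b t (l + 1) z = ((w + i * r : ℝ) : ℂ)})
      (by
        rintro z ⟨s, hs, rfl, i, hi⟩
        exact ⟨⟨i, hi⟩, s, hs, mem_cmp _ _ hr⟩)
    refine h3.trans ?_
    calc ((9 : ℕ) : ENNReal) * (2 * mm (xc a b t (l + 1)) S (5 * r) + pp (xc a b t (l + 1)) S r)
        ≤ ((9 : ℕ) : ENNReal) * (2 * X + X) := by gcongr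
      _ = 27 * X := by
        push_cast
        ring
  have hend := Pool.Agent.Helper59.EN.end_xc a b t (m + 1) hS hL hr (K₁ := 27 * X) (K₀ := 27 * X)
    (hfib (m + 1) le_rfl) (hfib m (by omega))
  have hXr : X = ENNReal.ofReal (K * (2 * C) ^ Z.card * (2 * D) ^ J.card) := by
    rw [hX, ENNReal.ofReal_mul (by positivity), ENNReal.ofReal_mul (by positivity),
      ENNReal.ofReal_pow (by positivity), ENNReal.ofReal_pow (by positivity),
      ENNReal.ofReal_mul (by norm_num), ENNReal.ofReal_mul (by norm_num)]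
    norm_num
  have h54 : ENNReal.ofReal r * (27 * X + 27 * X) =
      ENNReal.ofReal (54 * (1 + r) * (2 * C) ^ Z.card * (2 * D) ^ J.card) := by
    have e1 : (27 * X + 27 * X : ENNReal) = ENNReal.ofReal 54 * X := by
      have : ENNReal.ofReal 54 = 54 := by norm_num
      rw [this, ← add_mul]
      norm_num
    rw [e1, hXr, ← ENNReal.ofReal_mul (by norm_num), ← ENNReal.ofReal_mul hr.le]
    congr 1
    rw [hK]
    field_simp
  rw [h54] at hend
  rw [ENNReal.ofReal_div_of_pos hL, ENNReal.le_div_iff_mul_le (Or.inl (by simpa using hL))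
    (Or.inl ENNReal.ofReal_ne_top), mul_comm]
  exact hend

end Pool.Agent.Helper18.EN
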