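import Pool.Agent.Helper82.EN.Defs
import Pool.Agent.Helper95.EN.Fiber

/-! Block EN-COUNT: counting points of the fibres of an entire function near a set of real points. -/

set_option autoImplicit false
open Set Metric Filter Topology

namespace Pool.Agent.Helper18.EN

open Pool.Agent.Helper82.EN Helper95.EN
open Pool.Agent.Helper72.EN (comp)

variable {f : ℂ → ℂ}

lemma comp_eq_cmp {w z : ℂ} (h : f z = w) (R : ℝ) : comp f w R z = cmp f z R := by
  subst h
  rfl

/-- without critical points the component is injective -/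
lemma inj_of_noncrit (hf : Differentiable ℂ f) {z : ℂ} {R : ℝ} (hR : 0 < R)
    (hb : Bornology.IsBounded (cmp f z R)) (h : ∀ x ∈ cmp f z R, deriv f x ≠ 0) :
    InjOn f (cmp f z R) := by
  have hz : deriv f z ≠ 0 := h z (mem_cmp f z hR)
  rcases dichotomy hf hz (R := R) hb with h1 | ⟨r, hr0, hrR, -, ζ, hζ, hζ0⟩
  · exact h1
  · exact absurd hζ0 (h ζ (closure_cmp_sub hf.continuous hrR hr0 hζ))

/-- components that meet -/
lemma cmp_sub_of_meet {z z' : ℂ} {r r' R : ℝ} (h : (cmp f z r ∩ cmp f z' r').Nonempty)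
    (hR : r + 2 * r' ≤ R) : cmp f z' r' ⊆ cmp f z R := by
  obtain ⟨x, hx, hx'⟩ := h
  have h1 : 0 < r := lt_of_le_of_lt (norm_nonneg _) (cmp_sub f z r hx)
  have h2 : 0 < r' := lt_of_le_of_lt (norm_nonneg _) (cmp_sub f z' r' hx')
  have hpre : IsPreconnected (cmp f z r ∪ cmp f z' r') :=
    (cmp_preconn f z r).union x hx hx' (cmp_preconn f z' r')
  have hxz : ‖f x - f z‖ < r := cmp_sub f z r hx
  have hxz' : ‖f x - f z'‖ < r' := cmp_sub f z' r' hx'
  refine subset_union_right.trans (cmp_max hpre (Or.inl (mem_cmp f z h1)) ?_)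
  rintro u (hu | hu)
  · have := cmp_sub f z r hu
    simp only [mem_ofPred_eq] at this
    linarith
  · have h3 : ‖f u - f z'‖ < r' := cmp_sub f z' r' hu
    have h4 : ‖f u - f z‖ ≤ ‖f u - f z'‖ + ‖f z' - f x‖ + ‖f x - f z‖ := by
      calc ‖f u - f z‖ = ‖(f u - f z') + (f z' - f x) + (f x - f z)‖ := by ring_nf
        _ ≤ _ := norm_add₃_le
    rw [norm_sub_rev (f z') (f x)] at h4
    linarith

/-- a maximal disjoint family -/
lemma exists_max (f : ℂ → ℂ) (S : Set ℝ) (r : ℝ) (hr : 0 < r) :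
    ∃ T ⊆ S, (((T.encard : ℕ∞)) : ENNReal) ≤ pp f S r ∧
      ∀ s ∈ S, ∃ t ∈ T, (cmp f (t : ℂ) r ∩ cmp f (s : ℂ) r).Nonempty := by
  obtain ⟨T, hT⟩ := zorn_subset {T : Set ℝ | T ⊆ S ∧ T.PairwiseDisjoint fun s => cmp f (s : ℂ) r} (by
    intro c hc hchain
    refine ⟨⋃₀ c, ⟨sUnion_subset fun T hT => (hc hT).1, ?_⟩, fun T hT => subset_sUnion_of_mem hT⟩
    rintro x ⟨T, hT, hx⟩ y ⟨T', hT', hy⟩ hxy
    rcases hchain.total hT hT' with h | h
    · exact (hc hT').2 (h hx) hy hxy
    · exact (hc hT).2 hx (h hy) hxy)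
  refine ⟨T, hT.prop.1, ?_, ?_⟩
  · -- all finite subsets count
    by_cases hfin : T.Finite
    · have h1 : T.encard = (hfin.toFinset.card : ℕ∞) := hfin.encard_eq_coe_toFinset_card
      rw [h1]
      have h2 : ((((hfin.toFinset.card : ℕ∞)) : ENNReal)) = (hfin.toFinset.card : ENNReal) := by simp
      rw [h2]
      unfold pp
      refine le_iSup₂_of_le hfin.toFinset ⟨?_, ?_⟩ le_rfl
      · rw [hfin.coe_toFinset]
        exact hT.prop.1
      · rw [hfin.coe_toFinset]
        exact hT.prop.2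
    · have h3 : pp f S r = ⊤ := by
        rw [eq_top_iff]
        refine ENNReal.le_of_forall_nnreal_lt fun x hx => ?_
        obtain ⟨n, hn⟩ := exists_nat_ge x
        obtain ⟨F, hF, hFc⟩ := (show T.Infinite from hfin).exists_subset_card_eq n
        refine le_trans (show (x : ENNReal) ≤ (F.card : ENNReal) by rw [hFc]; exact_mod_cast hn) ?_
        unfold pp
        exact le_iSup₂_of_le F ⟨hF.trans hT.prop.1, hT.prop.2.subset hF⟩ le_rfl
      rw [h3]
      exact le_top
  · intro s hs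
    by_contra hcon
    push Not at hcon
    have hsT : s ∉ T := by
      intro h
      have h1 := hcon s h
      rw [inter_self] at h1
      have h2 : (s : ℂ) ∈ cmp f (s : ℂ) r := mem_cmp f (s : ℂ) hr
      rw [h1] at h2
      exact h2
    have hins : insert s T ∈ {T : Set ℝ | T ⊆ S ∧ T.PairwiseDisjoint fun s => cmp f (s : ℂ) r} := by
      refine ⟨insert_subset hs hT.prop.1, ?_⟩
      refine hT.prop.2.insert fun t ht hne => ?_
      have := hcon t ht
      rw [inter_comm] at this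
      exact Set.disjoint_iff_inter_eq_empty.2 this
    have := hT.le_of_ge hins (subset_insert s T)
    exact hsT (this (mem_insert s T))

/-- the counting lemma -/
theorem count (HW : HurwitzLocal) (hf : Differentiable ℂ f) (S : Set ℝ) {r : ℝ} (hr : 0 < r)
    (hb : ∀ s ∈ S, Bornology.IsBounded (cmp f (s : ℂ) (5 * r))) :
    ∃ T ⊆ S, ((T.encard : ℕ∞) : ENNReal) ≤ pp f S r ∧
      ∀ (w : ℂ) (Y : Finset ℂ), (∀ z ∈ Y, f z = w ∧ ∃ s ∈ S, z ∈ cmp f (s : ℂ) r) →
        (Y.card : ENNReal) ≤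
          2 * cz (deriv f) ((⋃ s ∈ S, cmp f (s : ℂ) (5 * r)) ∩ {ζ | ‖f ζ - w‖ < 4 * r}) +
            ((({t ∈ T | ‖f (t : ℂ) - w‖ < 3 * r}).encard : ℕ∞) : ENNReal) := by
  classical
  have hfd : Differentiable ℂ (deriv f) := fun z => (hf.analyticAt z).deriv.differentiableAt
  -- the univalent points
  set Su : Set ℝ := {s ∈ S | ∀ x ∈ cmp f (s : ℂ) (3 * r), deriv f x ≠ 0} with hSu
  obtain ⟨T, hTS, hTc, hTm⟩ := exists_max f Su r hr
  have hpp : pp f Su r ≤ pp f S r := by
    unfold pp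
    refine iSup₂_le fun F hF => le_iSup₂_of_le F ⟨hF.1.trans (sep_subset _ _), hF.2⟩ le_rfl
  refine ⟨T, hTS.trans (sep_subset _ _), hTc.trans hpp, ?_⟩
  intro w Y hY
  -- split
  set Yc := Y.filter (fun z => ∃ x ∈ cmp f z (4 * r), deriv f x = 0) with hYc
  set Yu := Y.filter (fun z => ¬ ∃ x ∈ cmp f z (4 * r), deriv f x = 0) with hYu
  have hsplit : Y.card = Yc.card + Yu.card := (Finset.card_filter_add_card_filter_not _).symm
  have hzs : ∀ z ∈ Y, ∀ s ∈ S, z ∈ cmp f (s : ℂ) r → cmp f z (4 * r) ⊆ cmp f (s : ℂ) (5 * r) := by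
    intro z _ s _ hzs
    exact cmp_of_mem (cmp_mono (by linarith) hzs) (le_of_lt (cmp_sub f _ _ hzs)) (by linarith)
  have hc : (Yc.card : ENNReal) ≤
      2 * cz (deriv f) ((⋃ s ∈ S, cmp f (s : ℂ) (5 * r)) ∩ {ζ | ‖f ζ - w‖ < 4 * r}) := by
    obtain ⟨Z, hZ, hZc⟩ := count_fin HW hf (w := w) (R := 4 * r) Yc (by
      intro z hz
      rw [hYc, Finset.mem_filter] at hz
      obtain ⟨hzY, x, hx, hx0⟩ := hz
      obtain ⟨hzw, s, hs, hzs'⟩ := hY z hzY
      rw [comp_eq_cmp hzw]
      exact ⟨hzw, (hb s hs).subset (hzs z hzY s hs hzs'), x, hx, hx0⟩)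
    have hsub : ∀ ζ ∈ Z, deriv f ζ = 0 ∧
        ζ ∈ (⋃ s ∈ S, cmp f (s : ℂ) (5 * r)) ∩ {ζ | ‖f ζ - w‖ < 4 * r} := by
      intro ζ hζ
      obtain ⟨h0, h1, z, hz, hζz⟩ := hZ ζ hζ
      rw [hYc, Finset.mem_filter] at hz
      obtain ⟨hzw, s, hs, hzs'⟩ := hY z hz.1
      rw [comp_eq_cmp hzw] at hζz
      exact ⟨h0, mem_iUnion₂.2 ⟨s, hs, hzs z hz.1 s hs hzs' hζz⟩, h1⟩
    have h1 : (Yc.card : ENNReal) ≤ ∑ ζ ∈ Z, 2 * od (deriv f) ζ := by
      have h2 : (Yc.card : ENNReal) ≤ ((∑ ζ ∈ Z, 2 * analyticOrderNatAt (deriv f) ζ : ℕ) : ENNReal) := by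
        exact_mod_cast hZc
      refine h2.trans ?_
      push_cast
      refine Finset.sum_le_sum fun ζ _ => ?_
      have h3 : (analyticOrderNatAt (deriv f) ζ : ENNReal) ≤ od (deriv f) ζ := by
        unfold od analyticOrderNatAt
        have := ENat.natCast_toNat_le_self (analyticOrderAt (deriv f) ζ)
        calc (((analyticOrderAt (deriv f) ζ).toNat : ℕ) : ENNReal)
            = ((((analyticOrderAt (deriv f) ζ).toNat : ℕ∞)) : ENNReal) := by simp
          _ ≤ _ := ENat.toENNReal_le.2 this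
      gcongr
    refine h1.trans ?_
    rw [← Finset.mul_sum]
    gcongr
    unfold cz
    set U := (⋃ s ∈ S, cmp f (s : ℂ) (5 * r)) ∩ {ζ | ‖f ζ - w‖ < 4 * r} with hU
    have h4 : ∑ ζ ∈ Z, od (deriv f) ζ = ∑ ζ ∈ Z.attach.map ⟨fun ζ => (⟨ζ.1, (hsub ζ.1 ζ.2).2⟩ : U), by
        intro x y hxy
        simp only [Subtype.mk.injEq] at hxy
        exact Subtype.ext hxy⟩, od (deriv f) ζ := by
      rw [Finset.sum_map]
      simp only [Function.Embedding.coeFn_mk]
      rw [Finset.sum_attach Z (fun ζ => od (deriv f) ζ)]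
    rw [h4]
    exact ENNReal.sum_le_tsum _
  have hu : (Yu.card : ENNReal) ≤ ((({t ∈ T | ‖f (t : ℂ) - w‖ < 3 * r}).encard : ℕ∞) : ENNReal) := by
    have hex : ∀ z ∈ Yu, ∃ t ∈ T, z ∈ cmp f (t : ℂ) (3 * r) := by
      intro z hz
      rw [hYu, Finset.mem_filter] at hz
      obtain ⟨hzw, s, hs, hzs'⟩ := hY z hz.1
      have hsu : s ∈ Su := by
        refine ⟨hs, fun x hx hx0 => hz.2 ⟨x, ?_, hx0⟩⟩
        have h1 : (cmp f z (r / 4) ∩ cmp f (s : ℂ) (3 * r)).Nonempty :=
          ⟨z, mem_cmp f z (by linarith), cmp_mono (by linarith) hzs'⟩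
        have h2 : ‖f z - f (s : ℂ)‖ < r := cmp_sub f _ _ hzs'
        -- `cmp f s (3 r)` contains `z` and has values within `4 r` of `f z`
        refine cmp_max (cmp_preconn f (s : ℂ) (3 * r)) (cmp_mono (by linarith) hzs') ?_ hx
        intro u hu
        have h3 : ‖f u - f (s : ℂ)‖ < 3 * r := cmp_sub f _ _ hu
        have h4 : ‖f u - f z‖ ≤ ‖f u - f (s : ℂ)‖ + ‖f (s : ℂ) - f z‖ :=
          norm_sub_le_norm_sub_add_norm_sub _ _ _
        rw [norm_sub_rev (f (s : ℂ)) (f z)] at h4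
        linarith
      obtain ⟨t, ht, hmeet⟩ := hTm s hsu
      exact ⟨t, ht, cmp_sub_of_meet hmeet (by linarith) hzs'⟩
    choose! τ hτ hτ' using hex
    have hinj : Set.InjOn τ (Yu : Set ℂ) := by
      intro z hz z' hz' heq
      have hz1 := Finset.mem_coe.1 hz
      have hz1' := Finset.mem_coe.1 hz'
      have h1 := hτ' z hz1
      have h2 := hτ' z' hz1'
      rw [← heq] at h2
      have hTz := hTS (hτ z hz1)
      have hinj := inj_of_noncrit hf (R := 3 * r) (by linarith)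
        ((hb _ hTz.1).subset (cmp_mono (by linarith))) hTz.2
      rw [hYu, Finset.mem_filter] at hz1 hz1'
      exact hinj h1 h2 ((hY z hz1.1).1.trans (hY z' hz1'.1).1.symm)
    have h1 : Yu.card = (Yu.image τ).card := (Finset.card_image_of_injOn hinj).symm
    have h2 : ((Yu.image τ : Finset ℝ) : Set ℝ) ⊆ {t ∈ T | ‖f (t : ℂ) - w‖ < 3 * r} := by
      intro t ht
      rw [Finset.coe_image] at ht
      obtain ⟨z, hz, rfl⟩ := ht
      have hz1 := Finset.mem_coe.1 hz
      refine ⟨hτ z hz1, ?_⟩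
      have h3 := cmp_sub f _ _ (hτ' z hz1)
      simp only [mem_ofPred_eq] at h3
      rw [hYu, Finset.mem_filter] at hz1
      rw [(hY z hz1.1).1, norm_sub_rev] at h3
      exact h3
    have h3 := Set.encard_le_encard h2
    rw [Set.encard_coe_eq_coe_finsetCard, ← h1] at h3
    calc (Yu.card : ENNReal) = (((Yu.card : ℕ∞)) : ENNReal) := by simp
      _ ≤ _ := ENat.toENNReal_le.2 h3
  rw [hsplit]
  push_cast
  exact add_le_add hc hu

/-- points over a set of values -/
theorem count_grid (HW : HurwitzLocal) (hf : Differentiable ℂ f) (S : Set ℝ) {r : ℝ} (hr : 0 < r)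
    (hb : ∀ s ∈ S, Bornology.IsBounded (cmp f (s : ℂ) (5 * r))) {G : Set ℂ} {N : ℕ}
    (hG : ∀ (x : ℂ) (F : Finset ℂ), (∀ w ∈ F, w ∈ G ∧ ‖x - w‖ < 4 * r) → F.card ≤ N) {Y : Set ℂ}
    (hY : ∀ z ∈ Y, f z ∈ G ∧ ∃ s ∈ S, z ∈ cmp f (s : ℂ) r) :
    ((Y.encard : ℕ∞) : ENNReal) ≤ N * (2 * mm f S (5 * r) + pp f S r) := by
  classical
  obtain ⟨T, hTS, hTc, hT⟩ := count HW hf S hr hb
  -- finite subsets
  have key : ∀ F : Finset ℂ, (F : Set ℂ) ⊆ Y →
      (F.card : ENNReal) ≤ N * (2 * mm f S (5 * r) + pp f S r) := by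
    intro F hF
    set U := ⋃ s ∈ S, cmp f (s : ℂ) (5 * r) with hU
    have h1 : (F.card : ENNReal) = ∑ w ∈ F.image f, ((F.filter (fun z => f z = w)).card : ENNReal) := by
      rw [Finset.card_eq_sum_card_image f F]
      push_cast
      rfl
    have hFG : ∀ w ∈ F.image f, w ∈ G := by
      intro w hw
      rw [Finset.mem_image] at hw
      obtain ⟨z, hz, rfl⟩ := hw
      exact (hY z (hF hz)).1
    have h2 : ∀ w ∈ F.image f, ((F.filter (fun z => f z = w)).card : ENNReal) ≤
        2 * cz (deriv f) (U ∩ {ζ | ‖f ζ - w‖ < 4 * r}) +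
            ((({t ∈ T | ‖f (t : ℂ) - w‖ < 3 * r}).encard : ℕ∞) : ENNReal) := by
      intro w _
      refine hT w _ fun z hz => ?_
      rw [Finset.mem_filter] at hz
      exact ⟨hz.2, (hY z (hF hz.1)).2⟩
    have h3 : ∑ w ∈ F.image f, cz (deriv f) (U ∩ {ζ | ‖f ζ - w‖ < 4 * r}) ≤ N * cz (deriv f) U := by
      have e1 : ∀ w ∈ F.image f, cz (deriv f) (U ∩ {ζ | ‖f ζ - w‖ < 4 * r}) =
          ∑' ζ : U, (if ‖f ζ - w‖ < 4 * r then od (deriv f) ζ else 0) := by
        intro w _
        rw [cz_eq_indicator, ← tsum_subtype_eq_of_support_subset (s := U)]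
        · refine tsum_congr fun ζ => ?_
          by_cases h : ‖f ζ - w‖ < 4 * r
          · rw [if_pos h, indicator_of_mem (show (ζ : ℂ) ∈ U ∩ {ζ | ‖f ζ - w‖ < 4 * r} from ⟨ζ.2, h⟩)]
          · rw [if_neg h, indicator_of_notMem (fun h' => h h'.2)]
        · intro ζ hζ
          by_contra hcon
          rw [Function.mem_support, indicator_of_notMem (fun h' => hcon h'.1)] at hζ
          exact hζ rfl
      rw [Finset.sum_congr rfl e1, ← Summable.tsum_finsetSum (fun _ _ => ENNReal.summable)]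
      unfold cz
      rw [← ENNReal.tsum_mul_left]
      refine ENNReal.tsum_le_tsum fun ζ => ?_
      rw [← Finset.sum_filter, Finset.sum_const, nsmul_eq_mul]
      gcongr
      exact_mod_cast hG (f ζ) _ fun w hw => by
        rw [Finset.mem_filter] at hw
        exact ⟨hFG w hw.1, hw.2⟩
    have h4 : ∑ w ∈ F.image f, ((({t ∈ T | ‖f (t : ℂ) - w‖ < 3 * r}).encard : ℕ∞) : ENNReal) ≤
        N * ((T.encard : ℕ∞) : ENNReal) := by
      by_cases hTfin : T.Finite
      · set T' := hTfin.toFinset with hT'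
        have e1 : ∀ w : ℂ, ((({t ∈ T | ‖f (t : ℂ) - w‖ < 3 * r}).encard : ℕ∞) : ENNReal) =
            ∑ t ∈ T', (if ‖f (t : ℂ) - w‖ < 3 * r then (1 : ENNReal) else 0) := by
          intro w
          have e2 : {t ∈ T | ‖f (t : ℂ) - w‖ < 3 * r} =
              ((T'.filter (fun t : ℝ => ‖f (t : ℂ) - w‖ < 3 * r) : Finset ℝ) : Set ℝ) := by
            ext t
            simp [hT']
          rw [e2, Set.encard_coe_eq_coe_finsetCard, ← Finset.sum_filter, Finset.sum_const,
            nsmul_eq_mul, mul_one]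
          simp
        have e3 : ((T.encard : ℕ∞) : ENNReal) = ∑ t ∈ T', (1 : ENNReal) := by
          rw [hTfin.encard_eq_coe_toFinset_card, Finset.sum_const, nsmul_eq_mul, mul_one, hT']
          simp
        rw [Finset.sum_congr rfl fun w _ => e1 w, Finset.sum_comm, e3, Finset.mul_sum]
        refine Finset.sum_le_sum fun t _ => ?_
        rw [← Finset.sum_filter, Finset.sum_const, nsmul_eq_mul]
        gcongr
        exact_mod_cast hG (f (t : ℂ)) _ fun w hw => by
          rw [Finset.mem_filter] at hw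
          exact ⟨hFG w hw.1, hw.2.trans (by linarith)⟩
      · rcases Nat.eq_zero_or_pos N with hN | hN
        · -- no values at all
          have hemp : F.image f = ∅ := by
            by_contra hne
            obtain ⟨w, hw⟩ := Finset.nonempty_iff_ne_empty.2 hne
            have := hG w {w} (by
              intro v hv
              rw [Finset.mem_singleton] at hv
              subst hv
              exact ⟨hFG v hw, by simpa using hr⟩)
            rw [Finset.card_singleton] at this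
            omega
          rw [hemp, Finset.sum_empty]
          exact zero_le
        · have e1 : T.encard = ⊤ := Set.Infinite.encard_eq hTfin
          rw [e1, ENat.toENNReal_top, ENNReal.mul_top (by exact_mod_cast hN.ne')]
          exact le_top
    calc (F.card : ENNReal) = ∑ w ∈ F.image f, ((F.filter (fun z => f z = w)).card : ENNReal) := h1
      _ ≤ ∑ w ∈ F.image f, (2 * cz (deriv f) (U ∩ {ζ | ‖f ζ - w‖ < 4 * r}) +
            ((({t ∈ T | ‖f (t : ℂ) - w‖ < 3 * r}).encard : ℕ∞) : ENNReal)) :=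
          Finset.sum_le_sum h2
      _ = 2 * ∑ w ∈ F.image f, cz (deriv f) (U ∩ {ζ | ‖f ζ - w‖ < 4 * r}) +
            ∑ w ∈ F.image f, ((({t ∈ T | ‖f (t : ℂ) - w‖ < 3 * r}).encard : ℕ∞) : ENNReal) := by
          rw [Finset.sum_add_distrib, Finset.mul_sum]
      _ ≤ 2 * (N * cz (deriv f) U) + N * ((T.encard : ℕ∞) : ENNReal) := by gcongr
      _ ≤ 2 * (N * cz (deriv f) U) + N * pp f S r := by gcongr
      _ = N * (2 * mm f S (5 * r) + pp f S r) := by
          unfold mm
          ring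
  by_cases hfin : Y.Finite
  · have h1 := key hfin.toFinset (by rw [hfin.coe_toFinset])
    rw [hfin.encard_eq_coe_toFinset_card]
    simpa using h1
  · have h1 : (N : ENNReal) * (2 * mm f S (5 * r) + pp f S r) = ⊤ := by
      rw [eq_top_iff]
      refine ENNReal.le_of_forall_nnreal_lt fun x hx => ?_
      obtain ⟨n, hn⟩ := exists_nat_ge x
      obtain ⟨F, hF, hFc⟩ := (show Y.Infinite from hfin).exists_subset_card_eq n
      refine le_trans (show (x : ENNReal) ≤ (F.card : ENNReal) by rw [hFc]; exact_mod_cast hn) ?_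
      exact key F hF
    rw [h1]
    exact le_top

/-- if every point of `S` has a critical point near -/
theorem pp_le_mm (hf : Differentiable ℂ f) (S : Set ℝ) {r R : ℝ} (hrR : r ≤ R)
    (h : ∀ s ∈ S, ∃ x ∈ cmp f (s : ℂ) r, deriv f x = 0) : pp f S r ≤ mm f S R := by
  classical
  have hfd : Differentiable ℂ (deriv f) := fun z => (hf.analyticAt z).deriv.differentiableAt
  unfold pp
  refine iSup₂_le fun F hF => ?_
  have h1 : ∀ s ∈ F, ∃ x ∈ cmp f (s : ℂ) r, deriv f x = 0 := fun s hs => h s (hF.1 hs)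
  choose! x hx hx0 using h1
  have hinj : Set.InjOn x (F : Set ℝ) := by
    intro s hs s' hs' heq
    by_contra hne
    have hd := hF.2 hs hs' hne
    rw [Function.onFun, Set.disjoint_left] at hd
    exact hd (hx s hs) (by rw [heq]; exact hx s' hs')
  set U := ⋃ s ∈ S, cmp f (s : ℂ) R with hU
  have hxU : ∀ s ∈ F, x s ∈ U := fun s hs =>
    mem_iUnion₂.2 ⟨s, hF.1 hs, cmp_mono hrR (hx s hs)⟩
  have h2 : (F.card : ENNReal) = ∑ z ∈ F.image x, (1 : ENNReal) := by
    rw [Finset.sum_const, Finset.card_image_of_injOn hinj]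
    simp
  have h3 : ∀ z ∈ F.image x, z ∈ U ∧ (1 : ENNReal) ≤ od (deriv f) z := by
    intro z hz
    rw [Finset.mem_image] at hz
    obtain ⟨s, hs, rfl⟩ := hz
    exact ⟨hxU s hs, one_le_od hfd (hx0 s hs)⟩
  rw [h2]
  refine (Finset.sum_le_sum fun z hz => (h3 z hz).2).trans ?_
  unfold mm cz
  have h4 : ∑ ζ ∈ F.image x, od (deriv f) ζ =
      ∑ ζ ∈ (F.image x).attach.map ⟨fun ζ => (⟨ζ.1, (h3 ζ.1 ζ.2).1⟩ : U), by
        intro x y hxy
        simp only [Subtype.mk.injEq] at hxy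
        exact Subtype.ext hxy⟩, od (deriv f) ζ := by
    rw [Finset.sum_map]
    simp only [Function.Embedding.coeFn_mk]
    rw [Finset.sum_attach (F.image x) (fun ζ => od (deriv f) ζ)]
  rw [h4]
  exact ENNReal.sum_le_tsum _

end Pool.Agent.Helper18.EN
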