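import Pool.Agent.Helper18.EN.BadE
import Pool.Agent.Helper18.UC.Expo

/-! Block EN-FREQ: the frequency of the visits. `vu W κ` is the set of points with upper frequency of visits less than `κ`; it is
measurable and invariant, its points are eventually in `VQ`; the visits of the reversed orbit; the frequency `nu` exists a.e. -/

set_option autoImplicit false
open MeasureTheory Real Set Filter Topology

namespace Pool.Agent.Helper18.EN

open Pool.Agent.Helper18.UC Pool.Agent.Helper18.UY

variable {a : ℝ} {S : T2 → T2} {W : Set ℝ}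

/-- points whose upper frequency of visits is less than `κ` -/
noncomputable def vu (a : ℝ) (W : Set ℝ) (κ : ℝ) : Set T2 :=
  {z | 1 - κ < liminf (fun n : ℕ => 1 - vis a W n (rep z) / n) atTop}

theorem vis_nonneg (a : ℝ) (W : Set ℝ) (n : ℕ) (q : ℝ × ℝ) : 0 ≤ vis a W n q :=
  Finset.sum_nonneg fun _ _ => indicator_nonneg (fun _ _ => zero_le_one) _

theorem vis_le (a : ℝ) (W : Set ℝ) (n : ℕ) (q : ℝ × ℝ) : vis a W n q ≤ n := by
  unfold vis
  calc ∑ j ∈ Finset.range n, W.indicator (fun _ => (1 : ℝ)) ((F a)^[j] q).1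
      ≤ ∑ _j ∈ Finset.range n, (1 : ℝ) :=
        Finset.sum_le_sum fun j _ => Set.indicator_le_self' (fun _ _ => zero_le_one) _
    _ = n := by simp

private theorem quot_nonneg (a : ℝ) (W : Set ℝ) (n : ℕ) (q : ℝ × ℝ) : 0 ≤ 1 - vis a W n q / n := by
  have h1 : vis a W n q / n ≤ 1 := by
    rcases Nat.eq_zero_or_pos n with h | h
    · subst h
      simp
    · have hn : (0 : ℝ) < n := by exact_mod_cast h
      rw [div_le_one hn]
      exact vis_le a W n q
  linarith

private theorem quot_le (a : ℝ) (W : Set ℝ) (n : ℕ) (q : ℝ × ℝ) : 1 - vis a W n q / n ≤ 1 := by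
  have : 0 ≤ vis a W n q / n := div_nonneg (vis_nonneg a W n q) (Nat.cast_nonneg n)
  linarith

private theorem lim_le {u v : ℕ → ℝ} {B : ℝ} (huB : ∀ n, u n ≤ B)
    (hv : ∀ n, 0 ≤ v n) (h : Tendsto (fun n => u n - v n) atTop (𝓝 0)) :
    liminf v atTop ≤ liminf u atTop := by
  refine le_of_forall_lt fun b hb => ?_
  obtain ⟨b', hb1, hb2⟩ := exists_between hb
  have hbdd : IsBoundedUnder (· ≥ ·) atTop v := isBoundedUnder_of ⟨0, fun n => hv n⟩
  have hcob : IsCoboundedUnder (· ≥ ·) atTop u :=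
    IsBoundedUnder.isCoboundedUnder_ge (isBoundedUnder_of ⟨B, fun n => huB n⟩)
  have h1 := eventually_lt_of_lt_liminf hb2 hbdd
  have h2 : ∀ᶠ n in atTop, -((b' - b) / 2) < u n - v n :=
    h.eventually (lt_mem_nhds (by linarith))
  have h3 : ∀ᶠ n in atTop, b + (b' - b) / 2 ≤ u n := by
    filter_upwards [h1, h2] with n h1 h2
    linarith
  have h4 := le_liminf_of_le hcob h3
  linarith

private theorem lim_eq {u v : ℕ → ℝ} {B : ℝ} (hu : ∀ n, 0 ≤ u n) (huB : ∀ n, u n ≤ B)
    (hv : ∀ n, 0 ≤ v n) (hvB : ∀ n, v n ≤ B) (h : Tendsto (fun n => u n - v n) atTop (𝓝 0)) :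
    liminf v atTop = liminf u atTop := by
  refine le_antisymm (lim_le huB hv h) (lim_le hvB hu ?_)
  have h1 := h.neg
  simp only [neg_sub, neg_zero] at h1
  exact h1

theorem measurableSet_vu (a : ℝ) (hW : Zone W) (κ : ℝ) : MeasurableSet (vu a W κ) := by
  refine measurableSet_lt measurable_const ?_
  exact Measurable.liminf fun n =>
    measurable_const.sub (((vis_meas a hW.meas n).comp measurable_rep).div_const _)

/-- visits at the representative of the image -/
theorem vis_rep (hS : IsS a S) (hW : Zone W) (n m : ℕ) (z : T2) :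
    vis a W n (rep (S^[m] z)) = vis a W n ((F a)^[m] (rep z)) := by
  have h1 : S^[m] z = toT ((F a)^[m] (rep z)) := by
    rw [← S_iter hS, toT_rep]
  obtain ⟨u, w, h⟩ := rep_toT ((F a)^[m] (rep z))
  rw [h1, h, vis_sh a hW]

private theorem vis_F (a : ℝ) (W : Set ℝ) (n : ℕ) (q : ℝ × ℝ) :
    |vis a W n (F a q) - vis a W n q| ≤ 1 := by
  have h1 : vis a W n (F a q) + W.indicator (fun _ => (1 : ℝ)) q.1 =
      vis a W n q + W.indicator (fun _ => (1 : ℝ)) ((F a)^[n] q).1 := by
    unfold vis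
    have h2 := Finset.sum_range_succ' (fun j => W.indicator (fun _ => (1 : ℝ)) ((F a)^[j] q).1) n
    have h3 := Finset.sum_range_succ (fun j => W.indicator (fun _ => (1 : ℝ)) ((F a)^[j] q).1) n
    rw [h3] at h2
    simp only [Function.iterate_succ_apply, Function.iterate_zero, id] at h2
    linarith
  have h4 : ∀ x : ℝ, 0 ≤ W.indicator (fun _ => (1 : ℝ)) x ∧ W.indicator (fun _ => (1 : ℝ)) x ≤ 1 :=
    fun x => ⟨indicator_nonneg (fun _ _ => zero_le_one) _,
      Set.indicator_le_self' (fun _ _ => zero_le_one) _⟩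
  have h5 := h4 q.1
  have h6 := h4 ((F a)^[n] q).1
  rw [abs_le]
  constructor <;> linarith

theorem vu_inv (hS : IsS a S) (hW : Zone W) (κ : ℝ) : S ⁻¹' (vu a W κ) = vu a W κ := by
  ext z
  have h1 : ∀ n, vis a W n (rep (S z)) = vis a W n (F a (rep z)) := by
    intro n
    have := vis_rep hS hW n 1 z
    rwa [Function.iterate_one, Function.iterate_one] at this
  have h2 : liminf (fun n : ℕ => 1 - vis a W n (rep z) / n) atTop =
      liminf (fun n : ℕ => 1 - vis a W n (F a (rep z)) / n) atTop := by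
    refine lim_eq (B := 1) (fun n => quot_nonneg a W n _)
      (fun n => quot_le a W n _) (fun n => quot_nonneg a W n _)
      (fun n => quot_le a W n _) ?_
    refine squeeze_zero_norm (a := fun n : ℕ => 1 / (n : ℝ)) (fun n => ?_)
      tendsto_one_div_atTop_nhds_zero_nat
    have h3 : 1 - vis a W n (F a (rep z)) / n - (1 - vis a W n (rep z) / n) =
        -(vis a W n (F a (rep z)) - vis a W n (rep z)) / n := by ring
    rw [h3, norm_div, norm_neg, Real.norm_natCast, Real.norm_eq_abs]
    exact div_le_div_of_nonneg_right (vis_F a W n (rep z)) (Nat.cast_nonneg n)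
  change 1 - κ < _ ↔ 1 - κ < _
  simp only [h1]
  rw [h2]

theorem vu_VQ (κ : ℝ) : ∀ z ∈ vu a W κ, ∀ᶠ N : ℕ in atTop, z ∈ VQ a W κ N := by
  intro z hz
  have hbdd : IsBoundedUnder (· ≥ ·) atTop
      (fun n : ℕ => 1 - vis a W n (rep z) / n) :=
    isBoundedUnder_of ⟨0, fun n => quot_nonneg a W n _⟩
  have h1 := eventually_lt_of_lt_liminf hz hbdd
  filter_upwards [h1, eventually_gt_atTop 0] with N hN hN0
  have hN1 : (0 : ℝ) < N := by exact_mod_cast hN0
  change vis a W N (rep z) ≤ κ * N
  have h2 : vis a W N (rep z) / N < κ := by linarith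
  rw [div_lt_iff₀ hN1] at h2
  exact h2.le

/-- the visits of the reversed orbit -/
theorem vis_rev (a : ℝ) (W : Set ℝ) (n : ℕ) (q : ℝ × ℝ) :
    vis a W n (Prod.swap ((F a)^[n] q)) = vis a W n q := by
  have h : ∀ j < n, ((F a)^[j] (Prod.swap ((F a)^[n] q))).1 = ((F a)^[n - 1 - j] q).1 := by
    intro j hj
    have e1 : (F a)^[n] q = (F a)^[j] ((F a)^[n - j] q) := by
      rw [← Function.iterate_add_apply]
      congr 1
      omega
    rw [e1, F_rev]
    obtain ⟨m, hm⟩ : ∃ m, n - j = m + 1 := ⟨n - j - 1, by omega⟩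
    have e2 : n - 1 - j = m := by omega
    rw [hm, e2, Function.iterate_succ_apply']
    rfl
  unfold vis
  rw [← Finset.sum_range_reflect (fun j => W.indicator (fun _ => (1 : ℝ)) ((F a)^[j] q).1) n]
  refine Finset.sum_congr rfl fun j hj => ?_
  rw [h j (Finset.mem_range.1 hj)]

theorem vis_rep_rev (hS : IsS a S) (hW : Zone W) (n : ℕ) (z : T2) :
    vis a W n (rep (Prod.swap (S^[n] z))) = vis a W n (rep z) := by
  have h1 : Prod.swap (S^[n] z) = toT (Prod.swap ((F a)^[n] (rep z))) := by
    have : S^[n] z = toT ((F a)^[n] (rep z)) := by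
      rw [← S_iter hS, toT_rep]
    rw [this]
    rfl
  obtain ⟨u, w, h⟩ := rep_toT (Prod.swap ((F a)^[n] (rep z)))
  rw [h1, h, vis_sh a hW, vis_rev]

private theorem prob : IsProbabilityMeasure (volume : Measure T2) := by
  have h1 : IsProbabilityMeasure (volume : Measure UnitAddCircle) := ⟨by
    rw [AddCircle.measure_univ, ENNReal.ofReal_one]⟩
  change IsProbabilityMeasure ((volume : Measure UnitAddCircle).prod (volume : Measure UnitAddCircle))
  infer_instance

/-- the zone on the torus -/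
def zt (W : Set ℝ) : Set T2 := {z | (rep z).1 ∈ W}

theorem measurableSet_zt (hW : Zone W) : MeasurableSet (zt W) :=
  (measurable_fst.comp measurable_rep) hW.meas

/-- the frequency of visits -/
theorem exists_nu (hS : IsS a S) (hW : Zone W) :
    ∃ nu : T2 → ℝ, Measurable nu ∧ (∀ z, |nu z| ≤ 1) ∧ (∀ᵐ z, 0 ≤ nu z) ∧
      (∀ κ : ℝ, ∀ᵐ z, nu z < κ → z ∈ vu a W κ) ∧
      ∫ z, nu z = volume.real (zt W) := by
  have := prob
  have hm := measurableSet_zt hW
  set h : T2 → ℝ := (zt W).indicator (fun _ => (1 : ℝ)) with hh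
  have hhm : Measurable h := measurable_const.indicator hm
  have hh1 : ∀ z, |h z| ≤ 1 := by
    intro z
    rw [abs_of_nonneg (indicator_nonneg (fun _ _ => zero_le_one) _)]
    exact Set.indicator_le_self' (fun _ _ => zero_le_one) _
  obtain ⟨G, hG1, hG2, -, hG4, hG5⟩ := Pool.Agent.Helper18.SD.birkhoff_bdd (S_mp hS) hhm hh1
  have hv : ∀ (n : ℕ) (z : T2), ∑ k ∈ Finset.range n, h (S^[k] z) = vis a W n (rep z) := by
    intro n z
    unfold vis
    refine Finset.sum_congr rfl fun k _ => ?_
    have h1 : S^[k] z = toT ((F a)^[k] (rep z)) := by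
      rw [← S_iter hS, toT_rep]
    obtain ⟨u, w, h2⟩ := rep_toT ((F a)^[k] (rep z))
    have h3 : (rep (S^[k] z)).1 = ((F a)^[k] (rep z)).1 + u := by
      rw [h1, h2]
      rfl
    by_cases h4 : ((F a)^[k] (rep z)).1 ∈ W
    · have h5 : S^[k] z ∈ zt W := by
        show (rep (S^[k] z)).1 ∈ W
        rw [h3]
        exact (hW.per _ _).2 h4
      rw [Set.indicator_of_mem h4, hh, Set.indicator_of_mem h5]
    · have h5 : S^[k] z ∉ zt W := by
        intro h6
        have h7 : (rep (S^[k] z)).1 ∈ W := h6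
        rw [h3] at h7
        exact h4 ((hW.per _ _).1 h7)
      rw [Set.indicator_of_notMem h4, hh, Set.indicator_of_notMem h5]
  refine ⟨G, hG1, hG2, ?_, ?_, ?_⟩
  · filter_upwards [hG4] with z hz
    refine ge_of_tendsto' hz fun n => ?_
    rw [hv]
    exact div_nonneg (vis_nonneg a W n _) (Nat.cast_nonneg n)
  · intro κ
    filter_upwards [hG4] with z hz hκ
    have h1 : Tendsto (fun n : ℕ => 1 - vis a W n (rep z) / n) atTop (𝓝 (1 - G z)) := by
      refine tendsto_const_nhds.sub ?_
      refine hz.congr fun n => ?_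
      rw [hv]
    change 1 - κ < _
    rw [h1.liminf_eq]
    linarith
  · rw [hG5, hh, integral_indicator hm]
    simp

end Pool.Agent.Helper18.EN
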