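import Pool.Agent.Helper18.EN.Count
import Pool.Agent.Helper18.UY.Vel

/-! Block EN-GRID: the step for the number of disjoint components. -/

set_option autoImplicit false
open Set Metric Filter Topology

namespace Pool.Agent.Helper18.EN

open Pool.Agent.Helper82.EN Helper95.EN
open Pool.Agent.Helper18.UC Pool.Agent.Helper18.UY

/-- points of a real grid in a disc -/
lemma grid_card {p r : ℝ} (hp : 0 < p) (hr : 0 < r) (c : ℝ) (x : ℂ) (F : Finset ℂ)
    (hF : ∀ w ∈ F, (∃ i : ℤ, w = ((c + i * p : ℝ) : ℂ)) ∧ ‖x - w‖ < 4 * r) :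
    F.card ≤ ⌊8 * r / p⌋₊ + 1 := by
  classical
  set A : ℤ := ⌈(x.re - 4 * r - c) / p⌉ with hA
  set A' : ℤ := ⌊(x.re + 4 * r - c) / p⌋ with hA'
  have hsub : F ⊆ (Finset.Icc A A').image (fun i : ℤ => ((c + i * p : ℝ) : ℂ)) := by
    intro w hw
    obtain ⟨⟨i, rfl⟩, h⟩ := hF w hw
    refine Finset.mem_image.2 ⟨i, ?_, rfl⟩
    have h1 : |x.re - (c + i * p)| < 4 * r := by
      have h2 := Complex.abs_re_le_norm (x - ((c + i * p : ℝ) : ℂ))
      rw [Complex.sub_re, Complex.ofReal_re] at h2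
      exact h2.trans_lt h
    rw [abs_lt] at h1
    rw [Finset.mem_Icc, hA, hA']
    refine ⟨Int.ceil_le.2 ?_, Int.le_floor.2 ?_⟩
    · rw [div_le_iff₀ hp]
      linarith
    · rw [le_div_iff₀ hp]
      linarith
  have h1 := (Finset.card_le_card hsub).trans Finset.card_image_le
  rw [Int.card_Icc] at h1
  refine h1.trans ?_
  have h2 : (A' + 1 - A : ℤ) ≤ ((⌊8 * r / p⌋₊ + 1 : ℕ) : ℤ) := by
    have h3 : (A' : ℝ) ≤ (x.re + 4 * r - c) / p := Int.floor_le _
    have h4 : (x.re - 4 * r - c) / p ≤ (A : ℝ) := Int.le_ceil _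
    have h5 : (A' : ℝ) - A ≤ 8 * r / p := by
      have : (x.re + 4 * r - c) / p - (x.re - 4 * r - c) / p = 8 * r / p := by ring
      linarith
    have h6 : (A' - A : ℤ) ≤ ⌊8 * r / p⌋ := Int.le_floor.2 (by push_cast; exact h5)
    have h7 : (⌊8 * r / p⌋ : ℤ) = (⌊8 * r / p⌋₊ : ℤ) := (Int.natCast_floor_eq_floor (by positivity)).symm
    push_cast
    omega
  omega

private lemma norm_cos_le (w : ℂ) : ‖Complex.cos w‖ ≤ Real.exp |w.im| := by
  have h1 : Complex.cos w = (Complex.exp (w * Complex.I) + Complex.exp (-w * Complex.I)) / 2 := by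
    rw [Complex.cos]
  rw [h1, norm_div, Complex.norm_ofNat]
  have h2 : ‖Complex.exp (w * Complex.I)‖ ≤ Real.exp |w.im| := by
    rw [Complex.norm_exp]
    refine Real.exp_le_exp.2 ?_
    simp only [Complex.mul_re, Complex.I_re, mul_zero, Complex.I_im, mul_one, zero_sub]
    exact neg_le_abs _
  have h3 : ‖Complex.exp (-w * Complex.I)‖ ≤ Real.exp |w.im| := by
    rw [Complex.norm_exp]
    refine Real.exp_le_exp.2 ?_
    simp only [Complex.mul_re, Complex.I_re, mul_zero, Complex.I_im, mul_one, zero_sub,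
      Complex.neg_im, neg_neg]
    exact le_abs_self _
  have h4 := norm_add_le (Complex.exp (w * Complex.I)) (Complex.exp (-w * Complex.I))
  rw [div_le_iff₀ (by norm_num)]
  linarith

/-- the sine is Lipschitz near the real line -/
lemma sin_lip {u : ℂ} {v : ℝ} (h : ‖u - v‖ ≤ 1) :
    ‖Complex.sin (2 * Real.pi * u) - Complex.sin (2 * Real.pi * v)‖ ≤
      2 * Real.pi * Real.exp (2 * Real.pi) * ‖u - v‖ := by
  have hd : ∀ z ∈ closedBall (v : ℂ) 1, HasDerivWithinAt (fun z : ℂ => Complex.sin (2 * Real.pi * z))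
      (2 * Real.pi * Complex.cos (2 * Real.pi * z)) (closedBall (v : ℂ) 1) z := by
    intro z _
    have h1 : HasDerivAt (fun z : ℂ => 2 * (Real.pi : ℂ) * z) (2 * Real.pi) z := by
      simpa using (hasDerivAt_id z).const_mul (2 * (Real.pi : ℂ))
    have h2 := h1.csin
    have e : Complex.cos (2 * (Real.pi : ℂ) * z) * (2 * Real.pi) =
      2 * Real.pi * Complex.cos (2 * Real.pi * z) := by ring
    rw [e] at h2
    exact h2.hasDerivWithinAt
  have hb : ∀ z ∈ closedBall (v : ℂ) 1, ‖2 * Real.pi * Complex.cos (2 * Real.pi * z)‖ ≤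
      2 * Real.pi * Real.exp (2 * Real.pi) := by
    intro z hz
    rw [norm_mul]
    have h1 : ‖(2 * Real.pi : ℂ)‖ = 2 * Real.pi := by
      rw [norm_mul, Complex.norm_ofNat, Complex.norm_real, Real.norm_eq_abs, abs_of_pos Real.pi_pos]
    rw [h1]
    refine mul_le_mul_of_nonneg_left ((norm_cos_le _).trans (Real.exp_le_exp.2 ?_))
      (by have := Real.pi_pos; positivity)
    have h2 : (2 * (Real.pi : ℂ) * z).im = 2 * Real.pi * z.im := by
      simp [Complex.mul_im]
    rw [h2, abs_mul, abs_of_pos (by have := Real.pi_pos; positivity : 0 < 2 * Real.pi)]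
    have h3 : |z.im| ≤ 1 := by
      have h4 := Complex.abs_im_le_norm (z - v)
      rw [Complex.sub_im, Complex.ofReal_im, sub_zero] at h4
      rw [mem_closedBall, dist_eq_norm] at hz
      linarith
    have := Real.pi_pos
    nlinarith
  have h0 := (convex_closedBall (v : ℂ) 1).norm_image_sub_le_of_norm_hasDerivWithin_le hd hb
    (mem_closedBall_self zero_le_one) (show u ∈ closedBall (v : ℂ) 1 by
      rw [mem_closedBall, dist_eq_norm]; exact h)
  exact h0

/-- the step for the number of disjoint components -/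
theorem pstep (HW : HurwitzLocal) (a : ℝ) {r : ℝ} (hr : 0 < r) :
    ∃ N : ℕ, 1 ≤ N ∧ (1 ≤ |a| → (N : ℝ) ≤ 16 * r + 640000 * |a| + 1) ∧ ∀ (b t : ℝ), 0 ≤ b → b ≤ 1 → (∀ (k : ℕ) (s : ℝ),
      Bornology.IsBounded (cmp (xc a b t (k + 1)) (s : ℂ) (5 * r))) →
      (∀ (k : ℕ) (s : ℝ), ∀ z ∈ cmp (xc a b t (k + 2)) (s : ℂ) (5 * r),
        ‖xc a b t (k + 1) z - xc a b t (k + 1) s‖ < r / 2) →
      ∀ (S : Set ℝ) (k : ℕ), pp (xc a b t (k + 2)) S r ≤
        N * (2 * mm (xc a b t (k + 1)) S (5 * r) + pp (xc a b t (k + 1)) S r) := by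
  classical
  set L : ℝ := 2 + |a| * (2 * Real.pi * Real.exp (2 * Real.pi)) with hL
  have hL2 : 2 ≤ L := by
    have := Real.pi_pos
    have : 0 ≤ |a| * (2 * Real.pi * Real.exp (2 * Real.pi)) := by positivity
    linarith
  set δ : ℝ := min (1 / 2) (r / (4 * L)) with hδ
  have hδ0 : 0 < δ := lt_min (by norm_num) (by positivity)
  have hδ1 : δ ≤ 1 / 2 := min_le_left _ _
  have hδ2 : L * δ ≤ r / 4 := by
    have h1 : δ ≤ r / (4 * L) := min_le_right _ _
    rw [le_div_iff₀ (by positivity)] at h1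
    linarith
  have hδr : δ ≤ r / 8 := by nlinarith
  refine ⟨⌊8 * r / δ⌋₊ + 1, by omega, ?_, ?_⟩
  · intro ha
    have h1 : 8 * r / δ ≤ 16 * r + 32 * L := by
      rw [div_le_iff₀ hδ0]
      rcases le_total (1 / 2) (r / (4 * L)) with h | h
      · have e : δ = 1 / 2 := min_eq_left h
        rw [e]
        nlinarith
      · have e : δ = r / (4 * L) := min_eq_right h
        rw [e]
        have h2 : (16 * r + 32 * L) * (r / (4 * L)) = 4 * r ^ 2 / L + 8 * r := by
          field_simp
          ring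
        rw [h2]
        have : 0 ≤ 4 * r ^ 2 / L := by positivity
        linarith
    have h3 : Real.exp (2 * Real.pi) ≤ 2800 := by
      have h4 : 2 * Real.pi ≤ 7 := by
        have := Real.pi_lt_d2
        linarith
      have h5 : Real.exp (2 * Real.pi) ≤ Real.exp 7 := Real.exp_le_exp.2 h4
      have h6 : Real.exp 7 ≤ 2800 := by
        have h7 : Real.exp 7 = Real.exp 1 ^ 7 := by rw [← Real.exp_nat_mul]; norm_num
        rw [h7]
        have h8 := Real.exp_one_lt_d9
        calc Real.exp 1 ^ 7 ≤ (2.7182818286 : ℝ) ^ 7 :=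
              pow_le_pow_left₀ (Real.exp_pos 1).le h8.le 7
          _ ≤ 2800 := by norm_num
      linarith
    have h4 : L ≤ 2 + |a| * 19600 := by
      have h5 : 2 * Real.pi * Real.exp (2 * Real.pi) ≤ 19600 := by
        have h6 : 2 * Real.pi ≤ 7 := by
          have := Real.pi_lt_d2
          linarith
        have := Real.exp_pos (2 * Real.pi)
        nlinarith [Real.pi_pos]
      have := mul_le_mul_of_nonneg_left h5 (abs_nonneg a)
      linarith
    have h5 : ((⌊8 * r / δ⌋₊ : ℕ) : ℝ) ≤ 8 * r / δ := Nat.floor_le (by positivity)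
    push_cast
    linarith
  intro b t hb0 hb1 hbd hosc S k
  set f := xc a b t (k + 1) with hf
  have hfd : Differentiable ℂ f := xc_diff a b t (k + 1)
  -- one small component lies in the next component
  have hin : ∀ s : ℝ, cmp f (s : ℂ) δ ⊆ cmp (xc a b t (k + 2)) (s : ℂ) r := by
    intro s
    refine cmp_max (cmp_preconn f (s : ℂ) δ) (mem_cmp f _ hδ0) fun u hu => ?_
    have h1 : ‖f u - f s‖ < δ := cmp_sub f _ _ hu
    obtain ⟨v, hv⟩ : ∃ v : ℝ, f s = (v : ℂ) := ⟨_, (xc_real a b t k s).1⟩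
    have h2 : ‖Complex.sin (2 * Real.pi * f u) - Complex.sin (2 * Real.pi * f s)‖ ≤
        2 * Real.pi * Real.exp (2 * Real.pi) * ‖f u - f s‖ := by
      rw [hv]
      refine sin_lip ?_
      rw [← hv]
      linarith
    have h3 : ‖xc a b t k u - xc a b t k s‖ < r / 2 := by
      rcases Nat.eq_zero_or_pos k with hk | hk
      · subst hk
        have h4 : xc a b t 0 u - xc a b t 0 s = b * (u - s) := by
          simp only [xc]
          ring
        have h5 : f u - f s = u - s := by
          rw [hf]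
          simp only [xc]
        rw [h5] at h1
        rw [h4, norm_mul, Complex.norm_real, Real.norm_eq_abs, abs_of_nonneg hb0]
        have := norm_nonneg (u - (s : ℂ))
        nlinarith
      · obtain ⟨m, rfl⟩ : ∃ m, k = m + 1 := ⟨k - 1, by omega⟩
        exact hosc m s u (cmp_mono (by linarith) hu)
    have h4 : xc a b t (k + 2) u - xc a b t (k + 2) s =
        2 * (f u - f s) + a * (Complex.sin (2 * Real.pi * f u) - Complex.sin (2 * Real.pi * f s)) -
          (xc a b t k u - xc a b t k s) := by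
      rw [hf]
      simp only [xc]
      ring
    rw [h4]
    have h5 : ‖2 * (f u - f s) + a * (Complex.sin (2 * Real.pi * f u) -
        Complex.sin (2 * Real.pi * f s))‖ ≤ L * ‖f u - f s‖ := by
      refine (norm_add_le _ _).trans ?_
      rw [norm_mul, norm_mul, Complex.norm_ofNat, Complex.norm_real, Real.norm_eq_abs, hL]
      have := mul_le_mul_of_nonneg_left h2 (abs_nonneg a)
      linarith
    have h6 : L * ‖f u - f s‖ ≤ L * δ := mul_le_mul_of_nonneg_left h1.le (by linarith)
    have h7 := norm_sub_le (2 * (f u - f s) + a * (Complex.sin (2 * Real.pi * f u) -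
        Complex.sin (2 * Real.pi * f s))) (xc a b t k u - xc a b t k s)
    linarith
  -- a constant function has no bounded component
  have hne : ∀ s : ℝ, ∃ z, deriv f z ≠ 0 := by
    intro s
    by_contra h
    push Not at h
    have hconst : ∀ u, f u = f s := fun u => is_const_of_deriv_eq_zero hfd h u s
    have huniv : cmp f (s : ℂ) (5 * r) = univ := by
      rw [eq_univ_iff_forall]
      intro u
      refine (cmp_max (isPreconnected_univ) (mem_univ _) fun v _ => ?_) (mem_univ u)
      rw [hconst v, sub_self, norm_zero]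
      linarith
    have := hbd k s
    rw [← hf, huniv] at this
    exact NormedSpace.unbounded_univ ℂ ℂ this
  -- points over the grid
  have hz : ∀ s : ℝ, ∃ z ∈ cmp f (s : ℂ) δ, ∃ i : ℤ, f z = ((0 + i * δ : ℝ) : ℂ) := by
    intro s
    obtain ⟨v, hv⟩ : ∃ v : ℝ, f s = (v : ℂ) := ⟨_, (xc_real a b t k s).1⟩
    set i : ℤ := round (v / δ) with hi
    have h1 : |v - i * δ| ≤ δ / 2 := by
      have h2 := abs_sub_round (v / δ)
      have h3 : v - i * δ = (v / δ - i) * δ := by
        rw [sub_mul, div_mul_cancel₀ _ hδ0.ne']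
      rw [h3, abs_mul, abs_of_pos hδ0]
      nlinarith [abs_nonneg (v / δ - (i : ℝ))]
    have honto : ball (f s) δ ⊆ f '' (cmp f (s : ℂ) δ) := by
      refine proper_onto hfd (hne s) (cmp_open hfd.continuous _ _)
        ((hbd k s).subset (cmp_mono (by linarith))) (convex_ball _ _).isPreconnected
        ⟨f s, mem_ball_self hδ0, mem_image_of_mem _ (mem_cmp f _ hδ0)⟩ ?_
      intro x hx hfx
      refine cmp_of_closure hfd.continuous hx ?_
      rwa [mem_ball, dist_eq_norm] at hfx
    obtain ⟨z, hz1, hz2⟩ := honto (show ((i * δ : ℝ) : ℂ) ∈ ball (f s) δ by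
      rw [mem_ball, dist_eq_norm, hv, ← Complex.ofReal_sub, Complex.norm_real, Real.norm_eq_abs,
        abs_sub_comm]
      linarith)
    exact ⟨z, hz1, i, by rw [hz2, zero_add]⟩
  choose z hz1 hz2 using hz
  unfold pp
  refine iSup₂_le fun F hF => ?_
  have hinj : Set.InjOn z (F : Set ℝ) := by
    intro s hs s' hs' heq
    by_contra hne'
    have hd := hF.2 hs hs' hne'
    rw [Function.onFun, Set.disjoint_left] at hd
    exact hd (hin s (hz1 s)) (hin s' (by rw [heq]; exact hz1 s'))
  have h1 := count_grid HW hfd S hr (fun s _ => hbd k s) (G := {w | ∃ i : ℤ, w = ((0 + i * δ : ℝ) : ℂ)})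
    (N := ⌊8 * r / δ⌋₊ + 1) (fun x G hG => grid_card hδ0 hr 0 x G hG) (Y := (F.image z : Finset ℂ)) (by
      intro y hy
      rw [Finset.mem_coe, Finset.mem_image] at hy
      obtain ⟨s, hs, rfl⟩ := hy
      exact ⟨hz2 s, s, hF.1 hs, cmp_mono (by linarith) (hz1 s)⟩)
  rw [Set.encard_coe_eq_coe_finsetCard, Finset.card_image_of_injOn hinj] at h1
  calc (F.card : ENNReal) = (((F.card : ℕ∞)) : ENNReal) := by simp
    _ ≤ _ := h1

end Pool.Agent.Helper18.EN
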