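import Mathlib

/-! Block EN-REC: the recursion for the numbers of critical points (`M`) and of disjoint components (`P`). -/

set_option autoImplicit false
open Set Finset

namespace Pool.Agent.Helper18.EN

/-- the bound at time `l` -/
noncomputable def Bd (K C D : ENNReal) (Z J : Finset ℕ) (l : ℕ) : ENNReal :=
  K * (2 * C) ^ (Z.filter (· < l)).card * (2 * D) ^ (J.filter (· ≤ l)).card

private lemma filt_lt (Z : Finset ℕ) (l : ℕ) :
    (Z.filter (· < l + 1)).card = (Z.filter (· < l)).card + if l ∈ Z then 1 else 0 := by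
  have h : Z.filter (· < l + 1) = Z.filter (· < l) ∪ Z.filter (· = l) := by
    ext x
    simp only [Finset.mem_filter, Finset.mem_union]
    constructor
    · rintro ⟨h1, h2⟩
      rcases Nat.lt_or_ge x l with h | h
      · exact Or.inl ⟨h1, h⟩
      · exact Or.inr ⟨h1, by omega⟩
    · rintro (⟨h1, h2⟩ | ⟨h1, h2⟩)
      · exact ⟨h1, by omega⟩
      · exact ⟨h1, by omega⟩
  rw [h, Finset.card_union_of_disjoint]
  · congr 1
    rw [Finset.filter_eq']
    split_ifs <;> simp
  · rw [Finset.disjoint_left]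
    intro x hx hx'
    simp only [Finset.mem_filter] at hx hx'
    omega

private lemma filt_le (J : Finset ℕ) (l : ℕ) :
    (J.filter (· ≤ l + 1)).card = (J.filter (· ≤ l)).card + if l + 1 ∈ J then 1 else 0 := by
  have e : ∀ m : ℕ, J.filter (· ≤ m) = J.filter (· < m + 1) := fun m => by
    ext x
    simp only [Finset.mem_filter]
    constructor <;> rintro ⟨h1, h2⟩ <;> exact ⟨h1, by omega⟩
  rw [e, e, filt_lt]

theorem rec_bound {M P : ℕ → ENNReal} {C D K : ENNReal} (hC : 1 ≤ C) (hD : 1 ≤ D) {Z J : Finset ℕ}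
    {n : ℕ} (h0 : M 0 ≤ K) (h0' : P 0 ≤ K)
    (hNL : ∀ l, 1 ≤ l → l ≤ n → l ∉ J → P l ≤ M l)
    (hOUT : ∀ l < n, l ∉ Z → M (l + 1) ≤ M l)
    (hIN : ∀ l < n, M (l + 1) ≤ C * (M l + P l))
    (hP : ∀ l < n, P (l + 1) ≤ D * (M l + P l)) :
    ∀ l ≤ n, M l ≤ Bd K C D Z J l ∧ P l ≤ Bd K C D Z J l := by
  have h2C : 1 ≤ 2 * C := by
    calc (1 : ENNReal) ≤ C := hC
      _ = 1 * C := (one_mul C).symm
      _ ≤ 2 * C := by gcongr; norm_num
  have h2D : 1 ≤ 2 * D := by
    calc (1 : ENNReal) ≤ D := hD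
      _ = 1 * D := (one_mul D).symm
      _ ≤ 2 * D := by gcongr; norm_num
  intro l
  induction l with
  | zero =>
    intro _
    have h1 : K ≤ Bd K C D Z J 0 := by
      unfold Bd
      calc K = K * 1 * 1 := by rw [mul_one, mul_one]
        _ ≤ K * (2 * C) ^ (Z.filter (· < 0)).card * (2 * D) ^ (J.filter (· ≤ 0)).card := by
            gcongr
            · exact one_le_pow₀ h2C
            · exact one_le_pow₀ h2D
    exact ⟨h0.trans h1, h0'.trans h1⟩
  | succ l ih =>
    intro hl
    obtain ⟨ih1, ih2⟩ := ih (by omega)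
    set X := Bd K C D Z J l with hX
    have hs : M l + P l ≤ 2 * X := by
      calc M l + P l ≤ X + X := add_le_add ih1 ih2
        _ = 2 * X := (two_mul X).symm
    have hIN' : M (l + 1) ≤ 2 * C * X := by
      calc M (l + 1) ≤ C * (M l + P l) := hIN l (by omega)
        _ ≤ C * (2 * X) := by gcongr
        _ = 2 * C * X := by ring
    have hP' : P (l + 1) ≤ 2 * D * X := by
      calc P (l + 1) ≤ D * (M l + P l) := hP l (by omega)
        _ ≤ D * (2 * X) := by gcongr
        _ = 2 * D * X := by ring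
    have hB : Bd K C D Z J (l + 1) = (2 * C) ^ (if l ∈ Z then 1 else 0) *
        (2 * D) ^ (if l + 1 ∈ J then 1 else 0) * X := by
      rw [hX]
      unfold Bd
      rw [filt_lt, filt_le, pow_add, pow_add]
      ring
    have hM : M (l + 1) ≤ (2 * C) ^ (if l ∈ Z then 1 else 0) * X := by
      by_cases h : l ∈ Z
      · rw [if_pos h, pow_one]
        exact hIN'
      · rw [if_neg h, pow_zero, one_mul]
        exact (hOUT l (by omega) h).trans ih1
    have hMB : M (l + 1) ≤ Bd K C D Z J (l + 1) := by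
      rw [hB]
      refine hM.trans ?_
      gcongr ?_ * _
      calc (2 * C) ^ (if l ∈ Z then 1 else 0) = (2 * C) ^ (if l ∈ Z then 1 else 0) * 1 := (mul_one _).symm
        _ ≤ _ := by gcongr; exact one_le_pow₀ h2D
    refine ⟨hMB, ?_⟩
    by_cases h : l + 1 ∈ J
    · rw [hB, if_pos h, pow_one]
      refine hP'.trans ?_
      gcongr ?_ * _
      calc 2 * D = 1 * (2 * D) := (one_mul _).symm
        _ ≤ (2 * C) ^ (if l ∈ Z then 1 else 0) * (2 * D) := by gcongr; exact one_le_pow₀ h2C
    · exact (hNL (l + 1) (by omega) hl h).trans hMB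

theorem Bd_le {C D K : ENNReal} (hC : 1 ≤ C) (hD : 1 ≤ D) (Z J : Finset ℕ) (l : ℕ) :
    Bd K C D Z J l ≤ K * (2 * C) ^ Z.card * (2 * D) ^ J.card := by
  have h2C : 1 ≤ 2 * C := by
    calc (1 : ENNReal) ≤ C := hC
      _ = 1 * C := (one_mul C).symm
      _ ≤ 2 * C := by gcongr; norm_num
  have h2D : 1 ≤ 2 * D := by
    calc (1 : ENNReal) ≤ D := hD
      _ = 1 * D := (one_mul D).symm
      _ ≤ 2 * D := by gcongr; norm_num
  unfold Bd
  gcongr
  · exact Finset.filter_subset _ _
  · exact Finset.filter_subset _ _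

end Pool.Agent.Helper18.EN
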